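import Mathlib

/-!
# Small identities
-/

set_option autoImplicit false

open Filter

namespace Pool.Agent.Lib.Ulam82

lemma alg_two {X l n a : ℝ} (ha : a ≠ 0) (hl : l ≠ 0) :
    (n + 2) * X / (a * l) + X / (a * l) = (X / (2 * l)) * (2 * (n + 3) / a) := by
  field_simp
  ring

lemma alg_five {X L C : ℝ} (hL : L ≠ 0) : C * (X / L ^ 2) = 2 * C / L * (X / (2 * L)) := by
  field_simp

lemma alg_six {X L C : ℝ} (hL : L ≠ 0) :
    C * ((X / L) * (X / L ^ 2)) = 4 * C / L * ((X / (2 * L)) * (X / (2 * L))) := by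
  field_simp
  ring

lemma tlog' : Tendsto (fun X : ℕ => Real.log (X : ℝ)) atTop atTop :=
  Real.tendsto_log_atTop.comp tendsto_natCast_atTop_atTop

end Pool.Agent.Lib.Ulam82
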