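import Pool.Agent.Lib.Ulam82.WCount
import Pool.Agent.Lib.Ulam82.Alg

/-!
# Two-sided bounds for the probability of a short run
-/

set_option autoImplicit false

open Finset Filter

namespace Pool.Agent.Lib.Ulam82

lemma exp_le_two {y : ℝ} (hy : y ≤ 1 / 2) : Real.exp y ≤ 2 := by
  have h1 : 1 / 2 ≤ Real.exp (-y) := by
    have := Real.one_sub_le_exp_neg y
    linarith
  have h2 : Real.exp y * Real.exp (-y) = 1 := by
    rw [← Real.exp_add, add_neg_cancel, Real.exp_zero]
  have h3 := Real.exp_pos y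
  nlinarith

lemma exp_le_one_sub {x : ℝ} (h0 : 0 ≤ x) (h1 : x ≤ 1 / 2) : Real.exp (-(2 * x)) ≤ 1 - x := by
  have h2 : 1 + 2 * x ≤ Real.exp (2 * x) := by
    have := Real.add_one_le_exp (2 * x)
    linarith
  have h3 : Real.exp (2 * x) * Real.exp (-(2 * x)) = 1 := by
    rw [← Real.exp_add, add_neg_cancel, Real.exp_zero]
  have h4 := Real.exp_pos (-(2 * x))
  have h5 : (1 + 2 * x) * Real.exp (-(2 * x)) ≤ 1 :=
    (mul_le_mul_of_nonneg_right h2 h4.le).trans h3.le
  have h6 : 1 ≤ (1 + 2 * x) * (1 - x) := by nlinarith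
  have h7 : 0 < 1 + 2 * x := by linarith
  have h8 : (1 + 2 * x) * Real.exp (-(2 * x)) ≤ (1 + 2 * x) * (1 - x) := h5.trans h6
  exact le_of_mul_le_mul_left h8 h7

lemma alg_seven {a b l n x y e : ℝ} (ha : a ≠ 0) (hb : b ≠ 0) (hl : l ≠ 0) :
    n * (e * a) * (x * (y * (2 * (n + 3) / (a * b * l)))) =
      (x * y) * (2 * e * n * (n + 3) / l / b) := by
  field_simp

/-- The probability of fewer than `N` steps, upper bound. -/
theorem part_one'' (N K A : ℕ) {c C : ℝ} (hc : 0 < c) (hC : 0 < C)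
    (hl : ∀ᶠ X : ℕ in atTop,
      (X : ℝ) / (2 * Real.log X) ≤ (((Icc 1 X).filter fun n : ℕ => n.Prime).card : ℝ) ∧
      (X : ℝ) / (2 * Real.log X) ≤ (((Ioc X (2 * X)).filter fun n : ℕ => n.Prime).card : ℝ))
    (hu : ∀ᶠ X : ℕ in atTop,
      (((Icc 1 X).filter fun n : ℕ => n.Prime).card : ℝ) ≤ C * (X / Real.log X))
    (hp : ∀ᶠ X : ℕ in atTop, ∃ V : Finset ℕ,
      (V.card : ℝ) ≤ ((N + 2 : ℕ) : ℝ) * X / Real.log X ^ (K * N + A + 3) + 1 ∧
      ∀ v : ℕ, v.Prime → v ≤ (N + 2) * X → v ∉ V → c * (X / Real.log X ^ 2) ≤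
        (((Icc 1 X).filter fun r : ℕ => r.Prime ∧ (v + r - 1).Prime).card : ℝ))
    (ht : ∀ᶠ X : ℕ in atTop, ∀ a b : ℕ, 1 ≤ a → a < b → (b : ℝ) ≤ X * Real.log X →
      (((Icc 1 X).filter fun r : ℕ => r.Prime ∧ (r + a).Prime ∧ (r + b).Prime).card : ℝ) ≤
        X / Real.log X ^ (5 / 2 : ℝ)) :
    ∀ᶠ X : ℕ in atTop, ∀ D : ℕ, (D : ℝ) ≤ Real.log X ^ K →
      ∀ B : Finset ((Fin D → ℕ) × ℕ),
        (∀ w ∈ B, (∀ i, w.1 i ∈ (Icc 1 X).filter fun n : ℕ => n.Prime) ∧
          (w.2 ∈ (Ioc X (2 * X)).filter fun n : ℕ => n.Prime) ∧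
          ¬ Steps (insert w.2 (univ.image w.1)) N) →
        (B.card : ℝ) ≤ (2 * N * Real.exp (-(c / (2 * C) * D / Real.log X)) + 1 / Real.log X ^ A) *
          ((((Icc 1 X).filter fun n : ℕ => n.Prime).card : ℝ) ^ D *
          ((Ioc X (2 * X)).filter fun n : ℕ => n.Prime).card) := by
  classical
  have t3 : ∀ᶠ X : ℕ in atTop, Real.log (X : ℝ) ^ (K * N + A + 3) ≤ X := by
    have h1 : ∀ᶠ x : ℝ in atTop, Real.log x ^ (K * N + A + 3) ≤ x := by
      have h2 := (Real.isLittleO_pow_log_id_atTop (n := K * N + A + 3)).bound one_pos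
      filter_upwards [h2, eventually_ge_atTop 1] with x hx hx1
      rw [one_mul, id, Real.norm_of_nonneg (pow_nonneg (Real.log_nonneg hx1) _),
        Real.norm_of_nonneg (by linarith)] at hx
      exact hx
    exact tendsto_natCast_atTop_atTop.eventually h1
  filter_upwards [hl, hu, hp, ht, t3,
    tlog'.eventually (eventually_ge_atTop (max 1 (max (c / (2 * C)) (max (N + 2)
      (max (2 * 2 ^ N * N * (N + 3)) (c / C * N)))))),
    tlog'.eventually ((tendsto_rpow_atTop (show (0 : ℝ) < 1 / 2 by norm_num)).eventually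
      (eventually_ge_atTop (2 * N / c))),
    eventually_ge_atTop 2] with X hl hu hp ht hpow hL hL6 hX2 D hD2 B hB
  set L := Real.log (X : ℝ) with hLdef
  set P := (Icc 1 X).filter fun n : ℕ => n.Prime with hPdef
  set P' := (Ioc X (2 * X)).filter fun n : ℕ => n.Prime with hP'def
  have hL1 : 1 ≤ L := le_trans (le_max_left _ _) hL
  have hL' := le_trans (le_max_right _ _) hL
  have hL2 : c / (2 * C) ≤ L := le_trans (le_max_left _ _) hL'
  have hL'' := le_trans (le_max_right _ _) hL'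
  have hL3 : (N : ℝ) + 2 ≤ L := le_trans (le_max_left _ _) hL''
  have hL''' := le_trans (le_max_right _ _) hL''
  have hL4 : 2 * 2 ^ N * (N : ℝ) * (N + 3) ≤ L := le_trans (le_max_left _ _) hL'''
  have hL5 : c / C * N ≤ L := le_trans (le_max_right _ _) hL'''
  have hL0 : 0 < L := by linarith
  have hXr : (2 : ℝ) ≤ X := by exact_mod_cast hX2
  obtain ⟨V, hV1, hV2⟩ := hp
  set ρ : ℝ := c / (2 * C) / L with hρ
  have hρ0 : 0 ≤ ρ := by positivity
  have hρ1 : ρ ≤ 1 := by rwa [hρ, div_le_one hL0]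
  have hH : ∀ v : ℕ, v.Prime → v ≤ (N + 2) * X → v ∉ V → ∀ U : Finset ℕ, U.card ≤ N →
      (∀ u ∈ U, X < u ∧ u < v) → ρ * P.card ≤
        ((P.filter fun r => (v + r - 1).Prime ∧ ∀ u ∈ U, ¬ (u + r - 1).Prime).card : ℝ) := by
    intro v hv hvX hvV U hU hUv
    have h1 := hV2 v hv hvX hvV
    have e1 : (P.filter fun r => (v + r - 1).Prime) =
        (Icc 1 X).filter fun r : ℕ => r.Prime ∧ (v + r - 1).Prime := by
      rw [hPdef, filter_filter]
    rw [← e1] at h1
    have hsub : (P.filter fun r => (v + r - 1).Prime) ⊆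
        (P.filter fun r => (v + r - 1).Prime ∧ ∀ u ∈ U, ¬ (u + r - 1).Prime) ∪
        U.biUnion fun u => (Icc 1 X).filter fun r : ℕ =>
          r.Prime ∧ (r + (u - 1)).Prime ∧ (r + (v - 1)).Prime := by
      intro r hr
      rw [mem_filter] at hr
      rw [mem_union]
      by_cases hall : ∀ u ∈ U, ¬ (u + r - 1).Prime
      · left
        rw [mem_filter]
        exact ⟨hr.1, hr.2, hall⟩
      · right
        push Not at hall
        obtain ⟨u, hu, hup⟩ := hall
        have h2 := hUv u hu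
        have h3 := mem_filter.mp hr.1
        rw [mem_biUnion]
        refine ⟨u, hu, ?_⟩
        rw [mem_filter]
        refine ⟨h3.1, h3.2, ?_, ?_⟩
        · rw [show r + (u - 1) = u + r - 1 by omega]
          exact hup
        · rw [show r + (v - 1) = v + r - 1 by omega]
          exact hr.2
    have h2 := (card_le_card hsub).trans (card_union_le _ _)
    have h3 : ((U.biUnion fun u => (Icc 1 X).filter fun r : ℕ =>
        r.Prime ∧ (r + (u - 1)).Prime ∧ (r + (v - 1)).Prime).card : ℝ) ≤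
        N * (X / L ^ (5 / 2 : ℝ)) := by
      calc ((U.biUnion fun u => (Icc 1 X).filter fun r : ℕ =>
          r.Prime ∧ (r + (u - 1)).Prime ∧ (r + (v - 1)).Prime).card : ℝ)
          ≤ ∑ u ∈ U, (((Icc 1 X).filter fun r : ℕ =>
            r.Prime ∧ (r + (u - 1)).Prime ∧ (r + (v - 1)).Prime).card : ℝ) := by
            exact_mod_cast card_biUnion_le
        _ ≤ ∑ _u ∈ U, (X / L ^ (5 / 2 : ℝ)) := by
            refine sum_le_sum fun u hu => ?_
            have h4 := hUv u hu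
            refine ht (u - 1) (v - 1) (by omega) (by omega) ?_
            have h5 : ((v - 1 : ℕ) : ℝ) ≤ ((N : ℝ) + 2) * X := by
              have : v - 1 ≤ (N + 2) * X := by omega
              exact_mod_cast this
            have h6 : ((N : ℝ) + 2) * X ≤ L * X :=
              mul_le_mul_of_nonneg_right hL3 (by linarith)
            linarith
        _ = U.card * (X / L ^ (5 / 2 : ℝ)) := by rw [sum_const, nsmul_eq_mul]
        _ ≤ N * (X / L ^ (5 / 2 : ℝ)) := by
            have : (U.card : ℝ) ≤ N := by exact_mod_cast hU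
            exact mul_le_mul_of_nonneg_right this (by positivity)
    have h4 : (N : ℝ) * (X / L ^ (5 / 2 : ℝ)) ≤ c / 2 * (X / L ^ 2) := by
      have e2 : L ^ (5 / 2 : ℝ) = L ^ 2 * L ^ (1 / 2 : ℝ) := by
        rw [← Real.rpow_natCast, ← Real.rpow_add hL0]
        norm_num
      have h5 : 0 < L ^ (1 / 2 : ℝ) := Real.rpow_pos_of_pos hL0 _
      have h6 : (N : ℝ) / L ^ (1 / 2 : ℝ) ≤ c / 2 := by
        rw [div_le_iff₀ h5]
        rw [div_le_iff₀ hc] at hL6
        linarith
      calc (N : ℝ) * (X / L ^ (5 / 2 : ℝ)) = (N / L ^ (1 / 2 : ℝ)) * (X / L ^ 2) := by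
            rw [e2]
            field_simp
        _ ≤ _ := mul_le_mul_of_nonneg_right h6 (by positivity)
    have h5 : ((P.filter fun r => (v + r - 1).Prime).card : ℝ) ≤
        ((P.filter fun r => (v + r - 1).Prime ∧ ∀ u ∈ U, ¬ (u + r - 1).Prime).card : ℝ) +
        ((U.biUnion fun u => (Icc 1 X).filter fun r : ℕ =>
          r.Prime ∧ (r + (u - 1)).Prime ∧ (r + (v - 1)).Prime).card : ℝ) := by
      exact_mod_cast h2
    have h6 : ρ * P.card ≤ c / 2 * (X / L ^ 2) := by
      calc ρ * P.card ≤ ρ * (C * (X / L)) := mul_le_mul_of_nonneg_left hu hρ0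
        _ = c / 2 * (X / L ^ 2) := by
            rw [hρ]
            field_simp
    linarith
  have hmain := card_not_steps' (X := X) (N := N) hρ0 hρ1 (P := P) (P' := P') (V := V)
    (fun s hs => by
      rw [hPdef, mem_filter, mem_Icc] at hs
      exact ⟨hs.2, hs.1.2⟩)
    (fun p hp => by
      rw [hP'def, mem_filter, mem_Ioc] at hp
      exact ⟨hp.2, hp.1.1, hp.1.2⟩)
    hH B hB
  refine hmain.trans ?_
  set p : ℝ := (P.card : ℝ) with hpdef
  set p' : ℝ := (P'.card : ℝ) with hp'def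
  have hp0 : 0 ≤ p := Nat.cast_nonneg _
  have hp'0 : 0 ≤ p' := Nat.cast_nonneg _
  have hτ0 : 0 ≤ 1 - ρ := by linarith
  have hDN : (D : ℝ) - N ≤ ((D - N : ℕ) : ℝ) := by
    rcases Nat.le_total N D with h | h
    · rw [Nat.cast_sub h]
    · have h1 : (D : ℝ) ≤ N := by exact_mod_cast h
      have h2 : (0 : ℝ) ≤ ((D - N : ℕ) : ℝ) := Nat.cast_nonneg _
      linarith
  have hb1 : (1 - ρ) ^ (D - N) ≤ 2 * Real.exp (-(c / (2 * C) * D / L)) := by
    have hρN : ρ * N ≤ 1 / 2 := by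
      have e1 : ρ * N = (c / C * N) / L / 2 := by
        rw [hρ]
        field_simp
      rw [e1]
      have : (c / C * N) / L ≤ 1 := by rwa [div_le_one hL0]
      linarith
    calc (1 - ρ) ^ (D - N) ≤ Real.exp (-ρ) ^ (D - N) :=
          pow_le_pow_left₀ hτ0 (Real.one_sub_le_exp_neg _) _
      _ = Real.exp (((D - N : ℕ) : ℝ) * (-ρ)) := (Real.exp_nat_mul _ _).symm
      _ ≤ Real.exp (ρ * N + -(c / (2 * C) * D / L)) := by
          refine Real.exp_le_exp.mpr ?_
          have h1 : ρ * ((D : ℝ) - N) ≤ ρ * ((D - N : ℕ) : ℝ) :=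
            mul_le_mul_of_nonneg_left hDN hρ0
          have h2 : ρ * D = c / (2 * C) * D / L := by
            rw [hρ]
            ring
          rw [← h2]
          linarith
      _ = Real.exp (ρ * N) * Real.exp (-(c / (2 * C) * D / L)) := Real.exp_add _ _
      _ ≤ 2 * Real.exp (-(c / (2 * C) * D / L)) :=
          mul_le_mul_of_nonneg_right (exp_le_two hρN) (Real.exp_pos _).le
  have hD1 : (D : ℝ) + 1 ≤ 2 * L ^ K := by
    have : 1 ≤ L ^ K := one_le_pow₀ hL1
    linarith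
  have hDK : ((D : ℝ) + 1) ^ N ≤ 2 ^ N * L ^ (K * N) := by
    rw [pow_mul, ← mul_pow]
    exact pow_le_pow_left₀ (by positivity) hD1 _
  have hVp : (V.card : ℝ) ≤ p' * (2 * (N + 3) / L ^ (K * N + A + 2)) := by
    have h1 : (1 : ℝ) ≤ X / L ^ (K * N + A + 3) := by
      rwa [one_le_div (by positivity)]
    calc (V.card : ℝ) ≤ ((N + 2 : ℕ) : ℝ) * X / L ^ (K * N + A + 3) + 1 := hV1
      _ ≤ ((N + 2 : ℕ) : ℝ) * X / L ^ (K * N + A + 3) + X / L ^ (K * N + A + 3) := by linarith
      _ = (X / (2 * L)) * (2 * (N + 3) / L ^ (K * N + A + 2)) := by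
          have : L ^ (K * N + A + 3) = L ^ (K * N + A + 2) * L := by ring
          rw [this]
          push_cast
          exact alg_two (by positivity) hL0.ne'
      _ ≤ p' * (2 * (N + 3) / L ^ (K * N + A + 2)) := by
          refine mul_le_mul_of_nonneg_right hl.2 (by positivity)
  have hA1 : N * ((D : ℝ) + 1) ^ N * (p ^ D * V.card) ≤ (p ^ D * p') * (1 / L ^ A) := by
    calc N * ((D : ℝ) + 1) ^ N * (p ^ D * V.card)
        ≤ N * (2 ^ N * L ^ (K * N)) *
          (p ^ D * (p' * (2 * (N + 3) / (L ^ (K * N) * L ^ A * L ^ 2)))) := by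
          have e1 : L ^ (K * N + A + 2) = L ^ (K * N) * L ^ A * L ^ 2 := by ring
          rw [← e1]
          exact mul_le_mul (mul_le_mul_of_nonneg_left hDK (Nat.cast_nonneg N))
            (mul_le_mul_of_nonneg_left hVp (pow_nonneg hp0 D))
            (mul_nonneg (pow_nonneg hp0 D) (Nat.cast_nonneg _)) (by positivity)
      _ = (p ^ D * p') * (2 * 2 ^ N * N * (N + 3) / L ^ 2 / L ^ A) :=
          alg_seven (by positivity) (by positivity) (by positivity)
      _ ≤ (p ^ D * p') * (1 / L ^ A) := by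
          have h1 : 2 * 2 ^ N * (N : ℝ) * (N + 3) / L ^ 2 ≤ 1 := by
            rw [div_le_one (by positivity)]
            nlinarith
          exact mul_le_mul_of_nonneg_left (div_le_div_of_nonneg_right h1 (by positivity))
            (mul_nonneg (pow_nonneg hp0 D) hp'0)
  have hA2 : N * ((1 - ρ) ^ (D - N) * (p ^ D * p')) ≤
      (2 * N * Real.exp (-(c / (2 * C) * D / L))) * (p ^ D * p') := by
    have hW : 0 ≤ p ^ D * p' := mul_nonneg (pow_nonneg hp0 D) hp'0
    have h1 := mul_le_mul_of_nonneg_left (mul_le_mul_of_nonneg_right hb1 hW)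
      (Nat.cast_nonneg (α := ℝ) N)
    linarith
  have e5 : N * ((1 - ρ) ^ (D - N) * (p ^ D * p') + ((D : ℝ) + 1) ^ N * (p ^ D * V.card)) =
      N * ((1 - ρ) ^ (D - N) * (p ^ D * p')) + N * ((D : ℝ) + 1) ^ N * (p ^ D * V.card) := by
    ring
  rw [e5, add_mul]
  have e6 : (1 / L ^ A) * (p ^ D * p') = (p ^ D * p') * (1 / L ^ A) := mul_comm _ _
  rw [e6]
  exact add_le_add hA2 hA1

end Pool.Agent.Lib.Ulam82
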