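import Pool.Agent.Lib.Ulam82.Asm3

/-!
# The probability that the process stops at once, lower bound
-/

set_option autoImplicit false

open Finset Filter

namespace Pool.Agent.Lib.Ulam82

/-- The probability that the process stops at once, lower bound. -/
theorem part_three {C1 C2 : ℝ} (hC1 : 0 < C1) (hC2 : 0 < C2)
    (hl : ∀ᶠ X : ℕ in atTop,
      (X : ℝ) / (2 * Real.log X) ≤ (((Icc 1 X).filter fun n : ℕ => n.Prime).card : ℝ) ∧
      (X : ℝ) / (2 * Real.log X) ≤ (((Ioc X (2 * X)).filter fun n : ℕ => n.Prime).card : ℝ))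
    (hd : ∀ᶠ X : ℕ in atTop,
      (((Ioc X (2 * X)).filter fun p : ℕ => p.Prime ∧ (2 * p - 1).Prime).card : ℝ) ≤
        C1 * (X / Real.log X ^ 2))
    (hu : ∀ᶠ X : ℕ in atTop, ∑ p ∈ (Ioc X (2 * X)).filter (fun p : ℕ => p.Prime),
      ((((Icc 1 X).filter fun r : ℕ => r.Prime).filter fun r => (p + r - 1).Prime).card : ℝ) ≤
      C2 * ((X / Real.log X) * (X / Real.log X ^ 2))) :
    ∀ᶠ X : ℕ in atTop, ∀ D : ℕ, ∀ B : Finset ((Fin D → ℕ) × ℕ),
        (∀ w : (Fin D → ℕ) × ℕ, (∀ i, w.1 i ∈ (Icc 1 X).filter fun n : ℕ => n.Prime) →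
          (w.2 ∈ (Ioc X (2 * X)).filter fun n : ℕ => n.Prime) →
          ¬ Steps (insert w.2 (univ.image w.1)) 1 → w ∈ B) →
        Real.exp (-((4 * C1 + 16 * C2) * (D + 1) / Real.log X)) *
          ((((Icc 1 X).filter fun n : ℕ => n.Prime).card : ℝ) ^ D *
          ((Ioc X (2 * X)).filter fun n : ℕ => n.Prime).card) ≤ B.card := by
  classical
  filter_upwards [hl, hd, hu,
    tlog'.eventually (eventually_ge_atTop (max 1 (max (4 * C1) (16 * C2)))),
    eventually_ge_atTop 2] with X hl hd hu hL hX2 D B hB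
  set L := Real.log (X : ℝ) with hLdef
  set P := (Icc 1 X).filter fun n : ℕ => n.Prime with hPdef
  set P' := (Ioc X (2 * X)).filter fun n : ℕ => n.Prime with hP'def
  have hL1 : 1 ≤ L := le_trans (le_max_left _ _) hL
  have hL2 : 4 * C1 ≤ L := le_trans ((le_max_left _ _).trans (le_max_right _ _)) hL
  have hL3 : 16 * C2 ≤ L := le_trans ((le_max_right _ _).trans (le_max_right _ _)) hL
  have hL0 : 0 < L := by linarith
  have hXr : (2 : ℝ) ≤ X := by exact_mod_cast hX2
  set Q := P'.filter fun p => ¬ (2 * p - 1).Prime with hQ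
  set S := Q.biUnion fun p => (Fintype.piFinset fun _ : Fin D =>
    P.filter fun r => ¬ (p + r - 1).Prime) ×ˢ ({p} : Finset ℕ) with hS
  have hSB : S ⊆ B := by
    intro w hw
    rw [hS, mem_biUnion] at hw
    obtain ⟨p, hp, hw⟩ := hw
    rw [mem_product, Fintype.mem_piFinset, mem_singleton] at hw
    have hp' := mem_filter.mp hp
    refine hB w (fun i => (mem_filter.mp (hw.1 i)).1) (by rw [hw.2]; exact hp'.1) ?_
    intro hst
    have hpX : X < w.2 := by
      rw [hw.2]
      exact (mem_Ioc.mp (mem_filter.mp hp'.1).1).1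
    rcases prime_of_steps (X := X) (S := univ.image w.1) (fun s hs => by
        obtain ⟨i, -, rfl⟩ := mem_image.mp hs
        have := mem_filter.mp (mem_filter.mp (hw.1 i)).1
        exact ⟨this.2, (mem_Icc.mp this.1).2⟩) hpX hst with h6 | ⟨s, hs, h6⟩
    · rw [hw.2] at h6
      exact hp'.2 h6
    · obtain ⟨i, -, rfl⟩ := mem_image.mp hs
      rw [hw.2] at h6
      exact (mem_filter.mp (hw.1 i)).2 h6
  have hScard : S.card = ∑ p ∈ Q, (P.filter fun r => ¬ (p + r - 1).Prime).card ^ D := by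
    rw [hS, card_biUnion]
    · refine sum_congr rfl fun p _ => ?_
      rw [card_product, card_singleton, mul_one, Fintype.card_piFinset, prod_const, card_univ,
        Fintype.card_fin]
    · intro p _ p' _ hne
      show Disjoint _ _
      rw [disjoint_left]
      intro w hw hw'
      rw [mem_product, mem_singleton] at hw hw'
      exact hne (hw.2.symm.trans hw'.2)
  set p : ℝ := (P.card : ℝ) with hpdef
  set p' : ℝ := (P'.card : ℝ) with hp'def
  set m : ℝ := (Q.card : ℝ) with hmdef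
  have hp0 : 0 ≤ p := Nat.cast_nonneg _
  have hp'0 : 0 < p' := lt_of_lt_of_le (by positivity) hl.2
  -- the size of `Q`
  have hx1 : 2 * C1 / L ≤ 1 / 2 := by
    rw [div_le_iff₀ hL0]
    linarith
  have hx2 : 8 * C2 / L ≤ 1 / 2 := by
    rw [div_le_iff₀ hL0]
    linarith
  have hx1' : 0 ≤ 2 * C1 / L := by positivity
  have hx2' : 0 ≤ 8 * C2 / L := by positivity
  have hm1 : p' * (1 - 2 * C1 / L) ≤ m := by
    have h1 : (P'.filter fun p => (2 * p - 1).Prime).card + Q.card = P'.card :=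
      card_filter_add_card_filter_not _
    have h2 : ((P'.filter fun p => (2 * p - 1).Prime).card : ℝ) + m = p' := by
      rw [hmdef, hp'def]
      exact_mod_cast h1
    have h3 : ((P'.filter fun p => (2 * p - 1).Prime).card : ℝ) ≤ 2 * C1 / L * p' := by
      rw [hP'def, filter_filter]
      refine hd.trans ?_
      rw [alg_five hL0.ne']
      exact mul_le_mul_of_nonneg_left hl.2 hx1'
    nlinarith
  have hm2 : p' ≤ 2 * m := by nlinarith
  have hm0 : 0 < m := by linarith
  -- Jensen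
  set b : ℕ → ℝ := fun q => ((P.filter fun r => ¬ (q + r - 1).Prime).card : ℝ) with hb
  set a : ℕ → ℝ := fun q => ((P.filter fun r => (q + r - 1).Prime).card : ℝ) with ha
  have hab : ∀ q, a q + b q = p := by
    intro q
    have h1 : (P.filter fun r => (q + r - 1).Prime).card +
        (P.filter fun r => ¬ (q + r - 1).Prime).card = P.card := card_filter_add_card_filter_not _
    simp only [ha, hb]
    rw [hpdef]
    exact_mod_cast h1
  have hsa : ∑ q ∈ Q, a q ≤ 4 * C2 / L * (p * p') := by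
    have h1 : ∑ q ∈ Q, a q ≤ ∑ q ∈ P', a q :=
      sum_le_sum_of_subset_of_nonneg (filter_subset _ _) fun q _ _ => Nat.cast_nonneg _
    refine h1.trans (hu.trans ?_)
    rw [alg_six hL0.ne']
    refine mul_le_mul_of_nonneg_left ?_ (by positivity)
    exact mul_le_mul hl.1 hl.2 (by positivity) hp0
  have hJ := Real.pow_arith_mean_le_arith_mean_pow Q (fun _ => 1 / m) b
    (fun _ _ => by positivity)
    (by rw [sum_const, nsmul_eq_mul, ← hmdef, mul_one_div_cancel hm0.ne'])
    (fun q _ => Nat.cast_nonneg _) D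
  rw [← mul_sum, ← mul_sum] at hJ
  have hbm : p * (1 - 8 * C2 / L) ≤ 1 / m * ∑ q ∈ Q, b q := by
    have h1 : ∑ q ∈ Q, b q = m * p - ∑ q ∈ Q, a q := by
      have h2 : ∑ q ∈ Q, (a q + b q) = m * p := by
        rw [sum_congr rfl fun q _ => hab q, sum_const, nsmul_eq_mul]
      rw [sum_add_distrib] at h2
      linarith
    have h3 : ∑ q ∈ Q, a q ≤ m * (8 * C2 / L * p) := by
      refine hsa.trans ?_
      have h4 : 0 ≤ 4 * C2 / L * p := by positivity
      calc 4 * C2 / L * (p * p') = 4 * C2 / L * p * p' := by ring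
        _ ≤ 4 * C2 / L * p * (2 * m) := mul_le_mul_of_nonneg_left hm2 h4
        _ = m * (8 * C2 / L * p) := by ring
    have h5 : m * (p * (1 - 8 * C2 / L)) ≤ ∑ q ∈ Q, b q := by
      rw [h1]
      have : m * (p * (1 - 8 * C2 / L)) = m * p - m * (8 * C2 / L * p) := by ring
      rw [this]
      linarith
    rw [one_div, inv_mul_eq_div, le_div_iff₀ hm0, mul_comm]
    exact h5
  have hb0 : 0 ≤ p * (1 - 8 * C2 / L) := mul_nonneg hp0 (by linarith)
  have hJ2 : m * (p * (1 - 8 * C2 / L)) ^ D ≤ ∑ q ∈ Q, b q ^ D := by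
    have h1 : (p * (1 - 8 * C2 / L)) ^ D ≤ 1 / m * ∑ q ∈ Q, b q ^ D :=
      (pow_le_pow_left₀ hb0 hbm D).trans hJ
    rw [one_div, inv_mul_eq_div, le_div_iff₀ hm0, mul_comm] at h1
    exact h1
  have hSr : (S.card : ℝ) = ∑ q ∈ Q, b q ^ D := by
    rw [hScard]
    push_cast
    rfl
  have hSB' : (S.card : ℝ) ≤ B.card := by exact_mod_cast card_le_card hSB
  have e1 : Real.exp (-(2 * (2 * C1 / L))) ≤ 1 - 2 * C1 / L := exp_le_one_sub hx1' hx1
  have e2 : Real.exp (-(2 * (8 * C2 / L))) ≤ 1 - 8 * C2 / L := exp_le_one_sub hx2' hx2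
  have e3 : Real.exp (-((4 * C1 + 16 * C2) * (D + 1) / L)) ≤
      Real.exp (-(2 * (2 * C1 / L))) * Real.exp (-(2 * (8 * C2 / L))) ^ D := by
    rw [← Real.exp_nat_mul, ← Real.exp_add]
    refine Real.exp_le_exp.mpr ?_
    have h1 : (4 * C1 + 16 * C2) * ((D : ℝ) + 1) / L =
        2 * (2 * C1 / L) + D * (2 * (8 * C2 / L)) + (4 * C1 * D / L + 16 * C2 / L) := by
      field_simp
      ring
    have h2 : 0 ≤ 4 * C1 * D / L + 16 * C2 / L := by positivity
    rw [h1]
    linarith
  calc Real.exp (-((4 * C1 + 16 * C2) * (D + 1) / L)) * (p ^ D * p')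
      ≤ (Real.exp (-(2 * (2 * C1 / L))) * Real.exp (-(2 * (8 * C2 / L))) ^ D) * (p ^ D * p') :=
        mul_le_mul_of_nonneg_right e3 (by positivity)
    _ ≤ ((1 - 2 * C1 / L) * (1 - 8 * C2 / L) ^ D) * (p ^ D * p') := by
        refine mul_le_mul_of_nonneg_right ?_ (by positivity)
        exact mul_le_mul e1 (pow_le_pow_left₀ (Real.exp_pos _).le e2 D) (by positivity)
          (by linarith)
    _ = (p' * (1 - 2 * C1 / L)) * (p * (1 - 8 * C2 / L)) ^ D := by
        rw [mul_pow]
        ring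
    _ ≤ m * (p * (1 - 8 * C2 / L)) ^ D := mul_le_mul_of_nonneg_right hm1 (pow_nonneg hb0 D)
    _ ≤ ∑ q ∈ Q, b q ^ D := hJ2
    _ = S.card := hSr.symm
    _ ≤ B.card := hSB'

end Pool.Agent.Lib.Ulam82
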