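import Mathlib
import Pool.Agent.Lib.Sieve4.Main

/-!
# Primes `p` with `2p - 1` prime: upper bound
-/

set_option autoImplicit false

open Finset Filter

namespace Pool.Agent.Lib.Ulam82

/-- the forbidden classes -/
def Om (l : ℕ) : Finset ℕ := {0, (l + 1) / 2}

lemma Om_card (l : ℕ) (hl : 3 ≤ l) : (Om l).card = 2 := by
  unfold Om
  apply Finset.card_pair
  have : 1 ≤ (l + 1) / 2 := by omega
  omega

lemma not_mem_Om (p l : ℕ) (hp : p.Prime) (hp2 : (2 * p - 1).Prime) (hl : l.Prime) (h2 : l ≠ 2)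
    (hlp : l < p) : p % l ∉ Om l := by
  have hodd : l % 2 = 1 := by
    rcases hl.eq_two_or_odd with h | h
    · exact absurd h h2
    · exact h
  intro h
  unfold Om at h
  rw [Finset.mem_insert, Finset.mem_singleton] at h
  rcases h with h | h
  · have h3 : l ∣ p := Nat.dvd_of_mod_eq_zero h
    rcases (Nat.dvd_prime hp).mp h3 with h4 | h4
    · exact hl.one_lt.ne' h4
    · omega
  · have h3 := Nat.div_add_mod p l
    have h4 : 2 * ((l + 1) / 2) = l + 1 := by omega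
    have h5 : 2 * p - 1 = l * (2 * (p / l) + 1) := by
      have h6 : 2 * p = l * (2 * (p / l)) + (l + 1) := by
        calc 2 * p = 2 * (l * (p / l) + p % l) := by rw [h3]
          _ = l * (2 * (p / l)) + 2 * (p % l) := by ring
          _ = _ := by rw [h, h4]
      rw [h6, mul_add, mul_one]
      omega
    have h7 : l ∣ 2 * p - 1 := ⟨_, h5⟩
    rcases (Nat.dvd_prime hp2).mp h7 with h8 | h8
    · exact hl.one_lt.ne' h8
    · omega

lemma prod_Om_le (z : ℕ) (hz : 2 ≤ z) :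
    ∏ l ∈ (Nat.primesLE z).erase 2, (1 - ((Om l).card : ℝ) / l) ≤
      4 / Real.log (z + 1) ^ 2 := by
  have hmem : ∀ l ∈ (Nat.primesLE z).erase 2, l.Prime ∧ 3 ≤ l := by
    intro l hl
    rw [Finset.mem_erase, Nat.mem_primesLE] at hl
    have h1 := hl.2.2.two_le
    exact ⟨hl.2.2, by have := hl.1; omega⟩
  have h1 : ∏ l ∈ (Nat.primesLE z).erase 2, (1 - ((Om l).card : ℝ) / l) ≤
      ∏ l ∈ (Nat.primesLE z).erase 2, (1 - 1 / (l : ℝ)) ^ 2 := by
    apply Finset.prod_le_prod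
    · intro l hl
      have h2 := (hmem l hl).2
      rw [Om_card l h2]
      have h3 : (3 : ℝ) ≤ l := by exact_mod_cast h2
      have h4 : ((2 : ℕ) : ℝ) / l ≤ 1 := by
        rw [div_le_one (by linarith)]
        push_cast
        linarith
      linarith
    · intro l hl
      have h2 := (hmem l hl).2
      rw [Om_card l h2]
      have h3 : (3 : ℝ) ≤ l := by exact_mod_cast h2
      have h4 : (0 : ℝ) ≤ (1 / (l : ℝ)) ^ 2 := by positivity
      have h5 : ((2 : ℕ) : ℝ) / l = 2 * (1 / (l : ℝ)) := by push_cast; ring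
      rw [h5]
      nlinarith
  have h2 : (2 : ℕ) ∈ Nat.primesLE z := by
    rw [Nat.mem_primesLE]
    exact ⟨hz, Nat.prime_two⟩
  have h3 := Pool.Agent.Lib.Sieve4.prod_one_sub_inv_le z (by omega)
  rw [← Finset.mul_prod_erase _ _ h2] at h3
  have h4 : 0 ≤ ∏ l ∈ (Nat.primesLE z).erase 2, (1 - 1 / (l : ℝ)) := by
    apply Finset.prod_nonneg
    intro l hl
    have h5 := (hmem l hl).2
    have h6 : (3 : ℝ) ≤ l := by exact_mod_cast h5
    have h7 : 1 / (l : ℝ) ≤ 1 := by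
      rw [div_le_one (by linarith)]
      linarith
    linarith
  have h5 : ∏ l ∈ (Nat.primesLE z).erase 2, (1 - 1 / (l : ℝ)) ≤ 2 / Real.log (z + 1) := by
    have h6 : (1 - 1 / ((2 : ℕ) : ℝ)) = 1 / 2 := by norm_num
    rw [h6] at h3
    have h7 : 2 / Real.log ((z : ℝ) + 1) = 2 * (1 / Real.log ((z : ℝ) + 1)) := by ring
    rw [h7]
    linarith
  calc ∏ l ∈ (Nat.primesLE z).erase 2, (1 - ((Om l).card : ℝ) / l)
      ≤ (∏ l ∈ (Nat.primesLE z).erase 2, (1 - 1 / (l : ℝ))) ^ 2 := by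
        rw [← Finset.prod_pow]
        exact h1
    _ ≤ (2 / Real.log (z + 1)) ^ 2 := by gcongr
    _ = 4 / Real.log (z + 1) ^ 2 := by rw [div_pow]; norm_num

theorem double_upper (δ : ℝ) (hδ : 0 < δ) : ∀ᶠ X : ℕ in atTop,
    (((Ioc X (2 * X)).filter fun p : ℕ => p.Prime ∧ (2 * p - 1).Prime).card : ℝ) ≤
      X / Real.log X ^ (2 - δ) := by
  have e1 : ∀ᶠ X : ℕ in atTop, (24 * 208 ^ 2 + 1 : ℝ) ≤ Real.log X ^ δ :=
    ((tendsto_rpow_atTop hδ).comp
      (Real.tendsto_log_atTop.comp tendsto_natCast_atTop_atTop)).eventually_ge_atTop _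
  have e2 : ∀ᶠ X : ℕ in atTop, ‖Real.log (X : ℝ) ^ (2 : ℝ)‖ ≤ 1 * ‖(X : ℝ) ^ (1 / 2 : ℝ)‖ :=
    tendsto_natCast_atTop_atTop.eventually
      ((isLittleO_log_rpow_rpow_atTop (2 : ℝ) (by norm_num : (0 : ℝ) < 1 / 2)).bound one_pos)
  have e3 : ∀ᶠ X : ℕ in atTop, (2 : ℝ) ≤ (X : ℝ) ^ (1 / 208 : ℝ) :=
    ((tendsto_rpow_atTop (by norm_num : (0 : ℝ) < 1 / 208)).comp
      tendsto_natCast_atTop_atTop).eventually_ge_atTop _
  filter_upwards [e1, e2, e3, eventually_ge_atTop 3] with X h1 h2 h3 h4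
  have hX1 : (1 : ℝ) < X := by exact_mod_cast (by omega : 1 < X)
  have hX0 : (0 : ℝ) < X := by linarith
  have hlog : 0 < Real.log X := Real.log_pos hX1
  set z := ⌊(X : ℝ) ^ (1 / 208 : ℝ)⌋₊ with hz
  have hz2 : 2 ≤ z := Nat.le_floor (by exact_mod_cast h3)
  have hzle : (z : ℝ) ≤ (X : ℝ) ^ (1 / 208 : ℝ) := Nat.floor_le (by positivity)
  have hzlt : (X : ℝ) ^ (1 / 208 : ℝ) < z + 1 := Nat.lt_floor_add_one _
  have hzX : z ≤ X := by
    have h5 : (X : ℝ) ^ (1 / 208 : ℝ) ≤ (X : ℝ) ^ (1 : ℝ) :=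
      Real.rpow_le_rpow_of_exponent_le hX1.le (by norm_num)
    rw [Real.rpow_one] at h5
    exact_mod_cast hzle.trans h5
  set P := (Nat.primesLE z).erase 2 with hP
  have hmem : ∀ l ∈ P, l.Prime ∧ 3 ≤ l ∧ l ≤ z := by
    intro l hl
    rw [hP, Finset.mem_erase, Nat.mem_primesLE] at hl
    have h1 := hl.2.2.two_le
    exact ⟨hl.2.2, by have := hl.1; omega, hl.2.1⟩
  have hs := Pool.Agent.Lib.Sieve4.upper_sieve P z hz2 (fun l hl => (hmem l hl).1)
    (fun l hl => (hmem l hl).2.2) Om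
    (fun l hl => by
      have h5 := (hmem l hl).2.1
      intro x hx
      unfold Om at hx
      rw [Finset.mem_insert, Finset.mem_singleton] at hx
      rw [Finset.mem_range]
      omega)
    (fun l hl => by
      have h5 := (hmem l hl).2.1
      rw [Om_card l h5]
      omega) 2
    (fun l hl => by
      have h5 := (hmem l hl).2.1
      rw [Om_card l h5]) (2 * X + 1)
  have hsub : ((Ioc X (2 * X)).filter fun p : ℕ => p.Prime ∧ (2 * p - 1).Prime) ⊆
      (range (2 * X + 1)).filter (fun n => ∀ p ∈ P, n % p ∉ Om p) := by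
    intro p hp
    rw [Finset.mem_filter, Finset.mem_Ioc] at hp
    obtain ⟨⟨hp1, hp2⟩, hp3, hp4⟩ := hp
    rw [Finset.mem_filter, Finset.mem_range]
    refine ⟨by omega, ?_⟩
    intro l hl
    obtain ⟨h5, h6, h7⟩ := hmem l hl
    exact not_mem_Om p l hp3 hp4 h5 (by omega) (by omega)
  have hcard : (((Ioc X (2 * X)).filter fun p : ℕ => p.Prime ∧ (2 * p - 1).Prime).card : ℝ) ≤
      (((range (2 * X + 1)).filter (fun n => ∀ p ∈ P, n % p ∉ Om p)).card : ℝ) := by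
    exact_mod_cast Finset.card_le_card hsub
  have hprod := prod_Om_le z hz2
  -- the logarithm of `z + 1`
  have hlogz : Real.log X / 208 ≤ Real.log ((z : ℝ) + 1) := by
    have h5 := Real.log_le_log (by positivity) hzlt.le
    rw [Real.log_rpow hX0] at h5
    linarith
  have hlogz0 : 0 < Real.log ((z : ℝ) + 1) := lt_of_lt_of_le (by positivity) hlogz
  have hprod2 : ∏ l ∈ P, (1 - ((Om l).card : ℝ) / l) ≤ 4 * 208 ^ 2 / Real.log X ^ 2 := by
    refine hprod.trans ?_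
    calc 4 / Real.log ((z : ℝ) + 1) ^ 2 ≤ 4 / (Real.log X / 208) ^ 2 := by
          gcongr
      _ = 4 * 208 ^ 2 / Real.log X ^ 2 := by
          field_simp
  have hz104 : (z : ℝ) ^ ((6 * 2 + 1) * (2 * 2 + 4)) ≤ (X : ℝ) ^ (1 / 2 : ℝ) := by
    calc (z : ℝ) ^ ((6 * 2 + 1) * (2 * 2 + 4)) = (z : ℝ) ^ 104 := by norm_num
      _ ≤ ((X : ℝ) ^ (1 / 208 : ℝ)) ^ 104 := by gcongr
      _ = (X : ℝ) ^ (1 / 2 : ℝ) := by
          rw [← Real.rpow_natCast, ← Real.rpow_mul hX0.le]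
          norm_num
  have hsqrt : (X : ℝ) ^ (1 / 2 : ℝ) ≤ X / Real.log X ^ 2 := by
    rw [Real.norm_of_nonneg (by positivity), Real.norm_of_nonneg (by positivity), one_mul] at h2
    have h5 : Real.log (X : ℝ) ^ (2 : ℝ) = Real.log X ^ 2 := by
      rw [← Real.rpow_natCast]
      norm_num
    rw [h5] at h2
    rw [le_div_iff₀ (by positivity)]
    calc (X : ℝ) ^ (1 / 2 : ℝ) * Real.log X ^ 2 ≤ (X : ℝ) ^ (1 / 2 : ℝ) * (X : ℝ) ^ (1 / 2 : ℝ) := by
          gcongr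
      _ = X := by
          rw [← Real.rpow_add hX0]
          norm_num
  have hmain : (((Ioc X (2 * X)).filter fun p : ℕ => p.Prime ∧ (2 * p - 1).Prime).card : ℝ) ≤
      (24 * 208 ^ 2 + 1) * (X / Real.log X ^ 2) := by
    refine (hcard.trans hs).trans ?_
    have h5 : 2 * ((2 * X + 1 : ℕ) : ℝ) * ∏ l ∈ P, (1 - ((Om l).card : ℝ) / l) ≤
        6 * X * (4 * 208 ^ 2 / Real.log X ^ 2) := by
      have h6 : 2 * ((2 * X + 1 : ℕ) : ℝ) ≤ 6 * X := by
        push_cast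
        linarith
      calc 2 * ((2 * X + 1 : ℕ) : ℝ) * ∏ l ∈ P, (1 - ((Om l).card : ℝ) / l)
          ≤ 2 * ((2 * X + 1 : ℕ) : ℝ) * (4 * 208 ^ 2 / Real.log X ^ 2) := by gcongr
        _ ≤ 6 * X * (4 * 208 ^ 2 / Real.log X ^ 2) := by gcongr
    calc 2 * ((2 * X + 1 : ℕ) : ℝ) * ∏ l ∈ P, (1 - ((Om l).card : ℝ) / l) +
          (z : ℝ) ^ ((6 * 2 + 1) * (2 * 2 + 4))
        ≤ 6 * X * (4 * 208 ^ 2 / Real.log X ^ 2) + X / Real.log X ^ 2 :=
          add_le_add h5 (hz104.trans hsqrt)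
      _ = (24 * 208 ^ 2 + 1) * (X / Real.log X ^ 2) := by ring
  refine hmain.trans ?_
  have h7 : (X : ℝ) / Real.log X ^ (2 - δ) = Real.log X ^ δ * (X / Real.log X ^ 2) := by
    rw [Real.rpow_sub hlog]
    have h8 : Real.log (X : ℝ) ^ (2 : ℝ) = Real.log X ^ 2 := by
      rw [← Real.rpow_natCast]
      norm_num
    rw [h8]
    have h9 : 0 < Real.log (X : ℝ) ^ δ := Real.rpow_pos_of_pos hlog _
    field_simp
  rw [h7]
  gcongr

end Pool.Agent.Lib.Ulam82
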