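import Pool.Agent.Lib.Ulam82.DoubleUp

/-!
# Primes `p` with `2p - 1` prime: sharp upper bound (proof of helper22)
-/

set_option autoImplicit false

open Finset Filter

namespace Pool.Agent.Lib.Ulam82

/-- Primes `p` in `(X, 2X]` with `2 p - 1` prime. -/
theorem double_upper' : ∀ᶠ X : ℕ in atTop,
    (((Ioc X (2 * X)).filter fun p : ℕ => p.Prime ∧ (2 * p - 1).Prime).card : ℝ) ≤
      (24 * 208 ^ 2 + 1) * (X / Real.log X ^ 2) := by
  have e2 : ∀ᶠ X : ℕ in atTop, ‖Real.log (X : ℝ) ^ (2 : ℝ)‖ ≤ 1 * ‖(X : ℝ) ^ (1 / 2 : ℝ)‖ :=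
    tendsto_natCast_atTop_atTop.eventually
      ((isLittleO_log_rpow_rpow_atTop (2 : ℝ) (by norm_num : (0 : ℝ) < 1 / 2)).bound one_pos)
  have e3 : ∀ᶠ X : ℕ in atTop, (2 : ℝ) ≤ (X : ℝ) ^ (1 / 208 : ℝ) :=
    ((tendsto_rpow_atTop (by norm_num : (0 : ℝ) < 1 / 208)).comp
      tendsto_natCast_atTop_atTop).eventually_ge_atTop _
  filter_upwards [e2, e3, eventually_ge_atTop 3] with X h2 h3 h4
  have hX1 : (1 : ℝ) < X := by exact_mod_cast (by omega : 1 < X)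
  have hX0 : (0 : ℝ) < X := by linarith
  have hlog : 0 < Real.log X := Real.log_pos hX1
  set z := ⌊(X : ℝ) ^ (1 / 208 : ℝ)⌋₊ with hz
  have hz2 : 2 ≤ z := Nat.le_floor (by exact_mod_cast h3)
  have hzle : (z : ℝ) ≤ (X : ℝ) ^ (1 / 208 : ℝ) := Nat.floor_le (by positivity)
  have hzlt : (X : ℝ) ^ (1 / 208 : ℝ) < z + 1 := Nat.lt_floor_add_one _
  have hzX : z ≤ X := by
    have h5 : (X : ℝ) ^ (1 / 208 : ℝ) ≤ (X : ℝ) ^ (1 : ℝ) :=
      Real.rpow_le_rpow_of_exponent_le hX1.le (by norm_num)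
    rw [Real.rpow_one] at h5
    exact_mod_cast hzle.trans h5
  set P := (Nat.primesLE z).erase 2 with hP
  have hmem : ∀ l ∈ P, l.Prime ∧ 3 ≤ l ∧ l ≤ z := by
    intro l hl
    rw [hP, Finset.mem_erase, Nat.mem_primesLE] at hl
    have h1 := hl.2.2.two_le
    exact ⟨hl.2.2, by have := hl.1; omega, hl.2.1⟩
  have hs := Pool.Agent.Lib.Sieve4.upper_sieve P z hz2 (fun l hl => (hmem l hl).1)
    (fun l hl => (hmem l hl).2.2) Om
    (fun l hl => by
      have h5 := (hmem l hl).2.1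
      intro x hx
      unfold Om at hx
      rw [Finset.mem_insert, Finset.mem_singleton] at hx
      rw [Finset.mem_range]
      omega)
    (fun l hl => by
      have h5 := (hmem l hl).2.1
      rw [Om_card l h5]
      omega) 2
    (fun l hl => by
      have h5 := (hmem l hl).2.1
      rw [Om_card l h5]) (2 * X + 1)
  have hsub : ((Ioc X (2 * X)).filter fun p : ℕ => p.Prime ∧ (2 * p - 1).Prime) ⊆
      (range (2 * X + 1)).filter (fun n => ∀ p ∈ P, n % p ∉ Om p) := by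
    intro p hp
    rw [Finset.mem_filter, Finset.mem_Ioc] at hp
    obtain ⟨⟨hp1, hp2⟩, hp3, hp4⟩ := hp
    rw [Finset.mem_filter, Finset.mem_range]
    refine ⟨by omega, ?_⟩
    intro l hl
    obtain ⟨h5, h6, h7⟩ := hmem l hl
    exact not_mem_Om p l hp3 hp4 h5 (by omega) (by omega)
  have hcard : (((Ioc X (2 * X)).filter fun p : ℕ => p.Prime ∧ (2 * p - 1).Prime).card : ℝ) ≤
      (((range (2 * X + 1)).filter (fun n => ∀ p ∈ P, n % p ∉ Om p)).card : ℝ) := by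
    exact_mod_cast Finset.card_le_card hsub
  have hprod := prod_Om_le z hz2
  -- the logarithm of `z + 1`
  have hlogz : Real.log X / 208 ≤ Real.log ((z : ℝ) + 1) := by
    have h5 := Real.log_le_log (by positivity) hzlt.le
    rw [Real.log_rpow hX0] at h5
    linarith
  have hlogz0 : 0 < Real.log ((z : ℝ) + 1) := lt_of_lt_of_le (by positivity) hlogz
  have hprod2 : ∏ l ∈ P, (1 - ((Om l).card : ℝ) / l) ≤ 4 * 208 ^ 2 / Real.log X ^ 2 := by
    refine hprod.trans ?_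
    calc 4 / Real.log ((z : ℝ) + 1) ^ 2 ≤ 4 / (Real.log X / 208) ^ 2 := by
          gcongr
      _ = 4 * 208 ^ 2 / Real.log X ^ 2 := by
          field_simp
  have hz104 : (z : ℝ) ^ ((6 * 2 + 1) * (2 * 2 + 4)) ≤ (X : ℝ) ^ (1 / 2 : ℝ) := by
    calc (z : ℝ) ^ ((6 * 2 + 1) * (2 * 2 + 4)) = (z : ℝ) ^ 104 := by norm_num
      _ ≤ ((X : ℝ) ^ (1 / 208 : ℝ)) ^ 104 := by gcongr
      _ = (X : ℝ) ^ (1 / 2 : ℝ) := by
          rw [← Real.rpow_natCast, ← Real.rpow_mul hX0.le]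
          norm_num
  have hsqrt : (X : ℝ) ^ (1 / 2 : ℝ) ≤ X / Real.log X ^ 2 := by
    rw [Real.norm_of_nonneg (by positivity), Real.norm_of_nonneg (by positivity), one_mul] at h2
    have h5 : Real.log (X : ℝ) ^ (2 : ℝ) = Real.log X ^ 2 := by
      rw [← Real.rpow_natCast]
      norm_num
    rw [h5] at h2
    rw [le_div_iff₀ (by positivity)]
    calc (X : ℝ) ^ (1 / 2 : ℝ) * Real.log X ^ 2 ≤ (X : ℝ) ^ (1 / 2 : ℝ) * (X : ℝ) ^ (1 / 2 : ℝ) := by
          gcongr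
      _ = X := by
          rw [← Real.rpow_add hX0]
          norm_num
  have hmain : (((Ioc X (2 * X)).filter fun p : ℕ => p.Prime ∧ (2 * p - 1).Prime).card : ℝ) ≤
      (24 * 208 ^ 2 + 1) * (X / Real.log X ^ 2) := by
    refine (hcard.trans hs).trans ?_
    have h5 : 2 * ((2 * X + 1 : ℕ) : ℝ) * ∏ l ∈ P, (1 - ((Om l).card : ℝ) / l) ≤
        6 * X * (4 * 208 ^ 2 / Real.log X ^ 2) := by
      have h6 : 2 * ((2 * X + 1 : ℕ) : ℝ) ≤ 6 * X := by
        push_cast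
        linarith
      calc 2 * ((2 * X + 1 : ℕ) : ℝ) * ∏ l ∈ P, (1 - ((Om l).card : ℝ) / l)
          ≤ 2 * ((2 * X + 1 : ℕ) : ℝ) * (4 * 208 ^ 2 / Real.log X ^ 2) := by gcongr
        _ ≤ 6 * X * (4 * 208 ^ 2 / Real.log X ^ 2) := by gcongr
    calc 2 * ((2 * X + 1 : ℕ) : ℝ) * ∏ l ∈ P, (1 - ((Om l).card : ℝ) / l) +
          (z : ℝ) ^ ((6 * 2 + 1) * (2 * 2 + 4))
        ≤ 6 * X * (4 * 208 ^ 2 / Real.log X ^ 2) + X / Real.log X ^ 2 :=
          add_le_add h5 (hz104.trans hsqrt)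
      _ = (24 * 208 ^ 2 + 1) * (X / Real.log X ^ 2) := by ring
  exact hmain

end Pool.Agent.Lib.Ulam82
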