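import Pool.Agent.Lib.SHZ.All0
import Pool.Agent.Lib.SHP.Mean

/-!
# Lower bounds: primes, and pairs of primes with a given difference
-/

set_option autoImplicit false

open Finset Filter

namespace Pool.Agent.Lib.Ulam82

open Pool.Agent.HLB Pool.Agent.HLU
open Pool.Agent.SHZ (HLy long_x0)
open Pool.Agent.Lib.Sieve4 (c0 c0_pos)

lemma tlog : Tendsto (fun X : ℕ => Real.log (X : ℝ)) atTop atTop :=
  Real.tendsto_log_atTop.comp tendsto_natCast_atTop_atTop

/-- The prime number theorem with a weak error, uniformly for `y ≤ x`. -/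
lemma prime_count : ∀ᶠ x : ℕ in atTop, ∀ y : ℕ, y ≤ x →
    |(((Icc 1 y).filter fun n : ℕ => n.Prime).card : ℝ) - ∑ n ∈ Icc 2 y, 1 / Real.log (n : ℝ)| ≤
      x / Real.log x ^ 2 := by
  obtain ⟨x0, h⟩ := long_x0 0 2 (1 / 6) (by norm_num)
  filter_upwards [eventually_ge_atTop x0, tlog.eventually (eventually_gt_atTop 1),
    eventually_ge_atTop 1] with x hx hL hx1 y hy
  obtain ⟨E, hE1, hE2, hE3⟩ := h x hx
  have hx1' : (1 : ℝ) ≤ x := by exact_mod_cast hx1
  have hE0 : E = ∅ := by
    by_contra hne
    have h1 : 1 ≤ E.card := card_pos.mpr (nonempty_iff_ne_empty.mpr hne)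
    have h2 : (1 : ℝ) ≤ E.card := by exact_mod_cast h1
    have h3 : (x : ℝ) ^ 0 / Real.log x ^ 2 < 1 := by
      rw [pow_zero, div_lt_one (by positivity)]
      nlinarith
    linarith
  have hf : (Fin.elim0 : Fin 0 → ℕ) ∈ Fintype.piFinset (fun _ : Fin 0 => Icc 1 x) := by
    rw [Fintype.mem_piFinset]
    exact fun i => i.elim0
  have hxx : (x : ℝ) ^ ((1 : ℝ) / 6 + 1 / 6) ≤ x := by
    calc (x : ℝ) ^ ((1 : ℝ) / 6 + 1 / 6) ≤ (x : ℝ) ^ (1 : ℝ) :=
          Real.rpow_le_rpow_of_exponent_le hx1' (by norm_num)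
      _ = x := Real.rpow_one _
  have h4 := hE3 Fin.elim0 hf (by rw [hE0]; exact notMem_empty _) (fun a => a.elim0) x le_rfl hxx y hy
  unfold HLy at h4
  rw [Pool.Agent.SHP.MeanAux.SI_one, one_mul] at h4
  have e1 : (Icc 1 y).filter (fun n : ℕ => ∀ i, (n + (Fin.cons 0 (Fin.elim0 : Fin 0 → ℕ) :
      Fin 1 → ℕ) i).Prime) = (Icc 1 y).filter fun n : ℕ => n.Prime := by
    refine filter_congr fun n _ => ?_
    constructor
    · intro h5
      simpa using h5 0
    · intro h5 i
      have hi : i = 0 := Subsingleton.elim (α := Fin 1) i 0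
      rw [hi]
      simpa using h5
  have e2 : ∀ n : ℕ, hl univ (Fin.cons 0 (Fin.elim0 : Fin 0 → ℕ) : Fin 1 → ℕ) n =
      1 / Real.log (n : ℝ) := by
    intro n
    unfold hl
    rw [show (univ : Finset (Fin 1)) = {0} from rfl, prod_singleton]
    simp
  rw [e1] at h4
  simpa only [e2] using h4

/-- Enough primes up to `X` and in `(X, 2X]`. -/
theorem prime_lower : ∀ᶠ X : ℕ in atTop,
    (X : ℝ) / (2 * Real.log X) ≤ (((Icc 1 X).filter fun n : ℕ => n.Prime).card : ℝ) ∧
    (X : ℝ) / (2 * Real.log X) ≤ (((Ioc X (2 * X)).filter fun n : ℕ => n.Prime).card : ℝ) := by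
  have t2 : Tendsto (fun X : ℕ => 2 * X) atTop atTop :=
    tendsto_id.const_mul_atTop' (by norm_num)
  filter_upwards [t2.eventually prime_count, eventually_ge_atTop 4,
    tlog.eventually (eventually_ge_atTop 40)] with X h hX hL
  have hXr : (4 : ℝ) ≤ X := by exact_mod_cast hX
  set L := Real.log X with hLdef
  have hlog2 : Real.log ((2 * X : ℕ) : ℝ) = Real.log 2 + L := by
    push_cast
    rw [Real.log_mul (by norm_num) (by linarith)]
  have hl2 : Real.log 2 < 1 := by
    have := Real.log_two_lt_d9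
    linarith
  have hl2' : 0 < Real.log 2 := Real.log_pos (by norm_num)
  have hc2 : ((2 * X : ℕ) : ℝ) = 2 * X := by push_cast; rfl
  have h1 := h X (by omega)
  have h2 := h (2 * X) le_rfl
  rw [hlog2, hc2] at h1 h2
  -- the error
  have herr : 2 * (X : ℝ) / (Real.log 2 + L) ^ 2 ≤ X / (20 * L) := by
    rw [div_le_div_iff₀ (by positivity) (by positivity)]
    have h3 : 40 * L ≤ (Real.log 2 + L) ^ 2 := by nlinarith
    have h4 := mul_le_mul_of_nonneg_left h3 (by linarith : (0 : ℝ) ≤ X)
    linarith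
  have s1 : (X - 1 : ℝ) / L ≤ ∑ n ∈ Icc 2 X, 1 / Real.log (n : ℝ) := by
    calc (X - 1 : ℝ) / L = ∑ n ∈ Icc 2 X, 1 / L := by
          rw [sum_const, Nat.card_Icc, nsmul_eq_mul]
          have : ((X + 1 - 2 : ℕ) : ℝ) = X - 1 := by
            rw [show X + 1 - 2 = X - 1 by omega, Nat.cast_sub (by omega)]
            norm_num
          rw [this]
          ring
      _ ≤ _ := by
          refine sum_le_sum fun n hn => ?_
          rw [mem_Icc] at hn
          have hn2 : (2 : ℝ) ≤ n := by exact_mod_cast hn.1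
          have hnX : (n : ℝ) ≤ X := by exact_mod_cast hn.2
          exact one_div_le_one_div_of_le (Real.log_pos (by linarith))
            (Real.log_le_log (by linarith) hnX)
  have s2 : (X : ℝ) / (Real.log 2 + L) ≤ ∑ n ∈ Icc 2 (2 * X), 1 / Real.log (n : ℝ) -
      ∑ n ∈ Icc 2 X, 1 / Real.log (n : ℝ) := by
    have hsplit : ∑ n ∈ Icc 2 (2 * X), 1 / Real.log (n : ℝ) =
        ∑ n ∈ Icc 2 X, 1 / Real.log (n : ℝ) + ∑ n ∈ Ioc X (2 * X), 1 / Real.log (n : ℝ) := by
      rw [← sum_union]
      · refine sum_congr ?_ fun _ _ => rfl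
        ext n
        rw [mem_union, mem_Icc, mem_Icc, mem_Ioc]
        omega
      · rw [disjoint_left]
        intro n hn hn'
        rw [mem_Icc] at hn
        rw [mem_Ioc] at hn'
        omega
    rw [hsplit, add_sub_cancel_left]
    calc (X : ℝ) / (Real.log 2 + L) = ∑ n ∈ Ioc X (2 * X), 1 / (Real.log 2 + L) := by
          rw [sum_const, Nat.card_Ioc, nsmul_eq_mul]
          rw [show 2 * X - X = X by omega]
          ring
      _ ≤ _ := by
          refine sum_le_sum fun n hn => ?_
          rw [mem_Ioc] at hn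
          have hn2 : (4 : ℝ) ≤ n := by
            have : 4 ≤ n := by omega
            exact_mod_cast this
          have hnX : (n : ℝ) ≤ ((2 * X : ℕ) : ℝ) := by exact_mod_cast hn.2
          refine one_div_le_one_div_of_le (Real.log_pos (by linarith)) ?_
          rw [← hlog2]
          exact Real.log_le_log (by linarith) hnX
  have hfs : (((Icc 1 (2 * X)).filter fun n : ℕ => n.Prime).card : ℝ) =
      (((Icc 1 X).filter fun n : ℕ => n.Prime).card : ℝ) +
        (((Ioc X (2 * X)).filter fun n : ℕ => n.Prime).card : ℝ) := by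
    rw [← Nat.cast_add, ← card_union_of_disjoint]
    · congr 2
      ext n
      simp only [mem_union, mem_filter, mem_Icc, mem_Ioc]
      constructor
      · rintro ⟨h1, h2⟩
        rcases Nat.lt_or_ge X n with h3 | h3
        · exact Or.inr ⟨⟨h3, h1.2⟩, h2⟩
        · exact Or.inl ⟨⟨h1.1, h3⟩, h2⟩
      · rintro (⟨h1, h2⟩ | ⟨h1, h2⟩)
        · exact ⟨⟨h1.1, by omega⟩, h2⟩
        · exact ⟨⟨by omega, h1.2⟩, h2⟩
    · rw [disjoint_left]
      intro n hn hn'
      rw [mem_filter, mem_Icc] at hn
      rw [mem_filter, mem_Ioc] at hn'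
      omega
  have a1 := (abs_le.mp h1)
  have a2 := (abs_le.mp h2)
  have hXL : 0 < (X : ℝ) / L := by positivity
  have f1 : (X : ℝ) / (2 * L) = (X / L) / 2 := by field_simp
  have f2 : (X : ℝ) / (20 * L) = (X / L) / 20 := by field_simp
  have f3 : (X - 1 : ℝ) / L = X / L - 1 / L := by rw [sub_div]
  have f4 : 1 / L ≤ (X / L) / 4 := by
    rw [div_div, div_le_div_iff₀ (by linarith) (by positivity)]
    nlinarith
  have f5 : (X / L) * (4 / 5) ≤ (X : ℝ) / (Real.log 2 + L) := by
    rw [div_mul_div_comm, div_le_div_iff₀ (by positivity) (by positivity)]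
    nlinarith
  rw [f2] at herr
  rw [f1]
  constructor
  · linarith [a1.1]
  · linarith [a1.1, a1.2, a2.1, a2.2]

theorem prime_upper : ∃ C : ℝ, 0 < C ∧ ∀ᶠ X : ℕ in atTop,
    (((Icc 1 X).filter fun n : ℕ => n.Prime).card : ℝ) ≤ C * (X / Real.log X) := by
  obtain ⟨K, hK, h⟩ := tuple_upperI 1 le_rfl
  refine ⟨K, hK, ?_⟩
  filter_upwards [eventually_ge_atTop 2] with X hX
  have h1 := h (Fin 1) (fun _ => 0) (Fintype.card_fin 1) (fun a b _ => Subsingleton.elim a b)
    (fun p hp => by
      have h2 := nuI_le (fun _ : Fin 1 => 0) p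
      rw [Fintype.card_fin] at h2
      have := hp.two_le
      omega) X hX
  rw [Pool.Agent.SHP.MeanAux.SI_one, mul_one, pow_one] at h1
  refine le_trans (le_of_eq ?_) h1
  congr 2
  refine Finset.ext fun n => ?_
  simp only [mem_filter, add_zero, forall_const]

/-- For almost all even `h ≤ M X` there are many primes `r ≤ X` with `r + h` prime. -/
theorem pair_lower (M A : ℕ) (hM : 1 ≤ M) (hA : 3 ≤ A) : ∀ᶠ X : ℕ in atTop,
    ∃ V : Finset ℕ, (V.card : ℝ) ≤ M * X / Real.log X ^ A + 1 ∧
      ∀ v : ℕ, v.Prime → v ≤ M * X → v ∉ V →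
        (c0 2 / 16) * (X / Real.log X ^ 2) ≤
          (((Icc 1 X).filter fun r : ℕ => r.Prime ∧ (v + r - 1).Prime).card : ℝ) := by
  classical
  obtain ⟨x0, h⟩ := long_x0 1 A (1 / 6) (by norm_num)
  set c1 := c0 2 with hc1
  have hc1p : 0 < c1 := c0_pos 2 (by norm_num)
  have tM : Tendsto (fun X : ℕ => M * X) atTop atTop :=
    tendsto_id.const_mul_atTop' (by omega)
  filter_upwards [tM.eventually (eventually_ge_atTop x0), eventually_ge_atTop 2,
    tlog.eventually (eventually_ge_atTop (max (Real.log (2 * M)) (max 1 (16 * M / c1))))]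
    with X hX hX2 hL
  have hM1 : (1 : ℝ) ≤ M := by exact_mod_cast hM
  have hXr : (2 : ℝ) ≤ X := by exact_mod_cast hX2
  set L := Real.log (X : ℝ) with hLdef
  have hL1 : Real.log (2 * M) ≤ L := le_trans (le_max_left _ _) hL
  have hL2 : 1 ≤ L := le_trans (le_trans (le_max_left _ _) (le_max_right _ _)) hL
  have hL3 : 16 * M / c1 ≤ L := le_trans (le_trans (le_max_right _ _) (le_max_right _ _)) hL
  set Z := M * X with hZ
  have hZr : (Z : ℝ) = M * X := by rw [hZ]; push_cast; rfl
  have hXZ : X ≤ Z := Nat.le_mul_of_pos_left _ (by omega)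
  have hZ1 : (1 : ℝ) ≤ Z := by
    have : 1 ≤ Z := by omega
    exact_mod_cast this
  have hLZ : L ≤ Real.log Z := Real.log_le_log (by linarith) (by exact_mod_cast hXZ)
  obtain ⟨E, hE1, hE2, hE3⟩ := h Z hX
  refine ⟨insert 2 (E.image fun f => f 0 + 1), ?_, ?_⟩
  · have h1 : (insert 2 (E.image fun f => f 0 + 1)).card ≤ E.card + 1 :=
      (card_insert_le _ _).trans (Nat.add_le_add_right card_image_le 1)
    have h2 : ((insert 2 (E.image fun f => f 0 + 1)).card : ℝ) ≤ E.card + 1 := by
      exact_mod_cast h1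
    have h3 : (Z : ℝ) ^ 1 / Real.log Z ^ A ≤ M * X / L ^ A := by
      rw [pow_one, hZr]
      rw [hZr] at hLZ
      gcongr
    linarith
  · intro v hv hvZ hvV
    rw [mem_insert, not_or] at hvV
    have hv3 : 3 ≤ v := by
      have := hv.two_le
      omega
    have hodd : v % 2 = 1 := by
      rcases hv.eq_two_or_odd with h1 | h1
      · exact absurd h1 hvV.1
      · exact h1
    set t : Fin 1 → ℕ := fun _ => v - 1 with ht
    have htm : t ∈ Fintype.piFinset (fun _ : Fin 1 => Icc 1 Z) := by
      rw [Fintype.mem_piFinset]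
      intro i
      rw [mem_Icc, ht]
      constructor
      · show 1 ≤ v - 1
        omega
      · show v - 1 ≤ Z
        omega
    have htE : t ∉ E := by
      intro hc
      apply hvV.2
      rw [mem_image]
      refine ⟨t, hc, ?_⟩
      show v - 1 + 1 = v
      omega
    have hZZ : (Z : ℝ) ^ ((1 : ℝ) / 6 + 1 / 6) ≤ Z := by
      calc (Z : ℝ) ^ ((1 : ℝ) / 6 + 1 / 6) ≤ (Z : ℝ) ^ (1 : ℝ) :=
            Real.rpow_le_rpow_of_exponent_le hZ1 (by norm_num)
        _ = Z := Real.rpow_one _
    have h4 := hE3 t htm htE (fun a b _ => Subsingleton.elim a b) Z le_rfl hZZ X hXZ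
    unfold HLy at h4
    set s : Fin 2 → ℕ := (Fin.cons 0 t : Fin (1 + 1) → ℕ) with hs
    have s0 : s 0 = 0 := rfl
    have s1 : s 1 = v - 1 := rfl
    have hinj : Function.Injective s := by
      intro a b hab
      fin_cases a <;> fin_cases b
      · rfl
      · exfalso
        have : s 0 = s 1 := hab
        rw [s0, s1] at this
        omega
      · exfalso
        have : s 1 = s 0 := hab
        rw [s0, s1] at this
        omega
      · rfl
    have hSI : c1 ≤ SI s := by
      have h5 := c0_le_SI s hinj (by rw [Fintype.card_fin]; norm_num) ?_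
      · rwa [Fintype.card_fin] at h5
      · intro p hp
        rcases eq_or_ne p 2 with rfl | hne
        · have h6 : nuI s 2 ≤ 1 := by
            unfold nuI
            refine (card_le_card (t := ({0} : Finset (ZMod 2))) ?_).trans (by simp)
            intro z hz
            obtain ⟨i, -, rfl⟩ := mem_image.mp hz
            rw [mem_singleton]
            fin_cases i
            · show ((s 0 : ℕ) : ZMod 2) = 0
              rw [s0]
              simp
            · show ((s 1 : ℕ) : ZMod 2) = 0
              rw [s1, ZMod.natCast_eq_zero_iff]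
              omega
          omega
        · have h6 := nuI_le s p
          rw [Fintype.card_fin] at h6
          have h7 := hp.two_le
          omega
    have hsum : (X - 1 : ℝ) / (4 * L ^ 2) ≤ ∑ n ∈ Icc 2 X, hl univ s n := by
      have hb : Real.log (2 * Z) ≤ 2 * L := by
        rw [hZr, ← mul_assoc, Real.log_mul (by positivity) (by positivity)]
        linarith
      calc (X - 1 : ℝ) / (4 * L ^ 2) = ∑ n ∈ Icc 2 X, 1 / (4 * L ^ 2) := by
            rw [sum_const, Nat.card_Icc, nsmul_eq_mul]
            have : ((X + 1 - 2 : ℕ) : ℝ) = X - 1 := by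
              rw [show X + 1 - 2 = X - 1 by omega, Nat.cast_sub (by omega)]
              norm_num
            rw [this]
            ring
        _ ≤ _ := by
            refine sum_le_sum fun n hn => ?_
            rw [mem_Icc] at hn
            unfold hl
            rw [Fin.prod_univ_two, s0, s1]
            have hn2 : (2 : ℝ) ≤ n := by exact_mod_cast hn.1
            have g0 : 0 < Real.log ((n + 0 : ℕ) : ℝ) := by
              rw [Nat.add_zero]
              exact Real.log_pos (by linarith)
            have c1' : (2 : ℝ) ≤ ((n + (v - 1) : ℕ) : ℝ) := by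
              have : 2 ≤ n + (v - 1) := by omega
              exact_mod_cast this
            have g1 : 0 < Real.log ((n + (v - 1) : ℕ) : ℝ) := Real.log_pos (by linarith)
            have b0 : Real.log ((n + 0 : ℕ) : ℝ) ≤ 2 * L := by
              refine (Real.log_le_log (by rw [Nat.add_zero]; linarith) ?_).trans hb
              have : n + 0 ≤ 2 * Z := by omega
              exact_mod_cast this
            have b1 : Real.log ((n + (v - 1) : ℕ) : ℝ) ≤ 2 * L := by
              refine (Real.log_le_log (by linarith) ?_).trans hb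
              have : n + (v - 1) ≤ 2 * Z := by omega
              exact_mod_cast this
            rw [one_div_mul_one_div]
            refine one_div_le_one_div_of_le (mul_pos g0 g1) ?_
            calc Real.log ((n + 0 : ℕ) : ℝ) * Real.log ((n + (v - 1) : ℕ) : ℝ)
                ≤ (2 * L) * (2 * L) := mul_le_mul b0 b1 g1.le (by linarith)
              _ = 4 * L ^ 2 := by ring
    have hfil : (Icc 1 X).filter (fun n : ℕ => ∀ i, (n + s i).Prime) =
        (Icc 1 X).filter fun r : ℕ => r.Prime ∧ (v + r - 1).Prime := by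
      refine filter_congr fun n _ => ?_
      rw [Fin.forall_fin_two, s0, s1, Nat.add_zero, show n + (v - 1) = v + n - 1 by omega]
    rw [hfil] at h4
    have h5 := (abs_le.mp h4).1
    have hpos : 0 ≤ (X - 1 : ℝ) / (4 * L ^ 2) := div_nonneg (by linarith) (by positivity)
    have h6 : c1 * ((X - 1 : ℝ) / (4 * L ^ 2)) ≤ SI s * ∑ n ∈ Icc 2 X, hl univ s n :=
      mul_le_mul hSI hsum hpos (hc1p.le.trans hSI)
    have herr : (Z : ℝ) / Real.log Z ^ A ≤ (c1 / 16) * (X / L ^ 2) := by
      have e1 : L ^ 3 ≤ Real.log Z ^ A := by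
        calc L ^ 3 ≤ L ^ A := pow_le_pow_right₀ hL2 hA
          _ ≤ _ := pow_le_pow_left₀ (by linarith) hLZ _
      calc (Z : ℝ) / Real.log Z ^ A ≤ Z / L ^ 3 := by gcongr
        _ = (M / L) * (X / L ^ 2) := by rw [hZr]; field_simp
        _ ≤ _ := by
            have : (M : ℝ) / L ≤ c1 / 16 := by
              rw [div_le_iff₀ (by linarith)]
              rw [div_le_iff₀ hc1p] at hL3
              nlinarith
            gcongr
    have hmain : (c1 / 8) * (X / L ^ 2) ≤ c1 * ((X - 1 : ℝ) / (4 * L ^ 2)) := by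
      have : (X : ℝ) / L ^ 2 / 2 ≤ (X - 1 : ℝ) / L ^ 2 := by
        rw [div_div, mul_comm, ← div_div]
        gcongr
        linarith
      calc (c1 / 8) * (X / L ^ 2) = c1 / 4 * (X / L ^ 2 / 2) := by ring
        _ ≤ c1 / 4 * ((X - 1 : ℝ) / L ^ 2) := by gcongr
        _ = _ := by field_simp
    linarith

end Pool.Agent.Lib.Ulam82
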