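import Mathlib

/-!
# Ulam's process `q (n + 1) = q n + q i - 1` started from a finite set of primes
-/

set_option autoImplicit false

open Finset

namespace Pool.Agent.Lib.Ulam82

/-- Step number `n` of the process. -/
def StepAt (q : ℕ → ℕ) (n : ℕ) : Prop :=
  (q (n + 1)).Prime ∧ (∃ i, i ≤ n ∧ q (n + 1) = q n + q i - 1) ∧
    ∀ p : ℕ, p.Prime → (∃ i, i ≤ n ∧ p = q n + q i - 1) → q (n + 1) ≤ p

/-- The process started from the elements of `Q`, in increasing order, makes at least `N` steps. -/
def Steps (Q : Finset ℕ) (N : ℕ) : Prop :=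
  ∃ q : ℕ → ℕ, (∀ i j, i < j → j < Q.card → q i < q j) ∧ (range Q.card).image q = Q ∧
    ∀ n, Q.card ≤ n + 1 → n + 1 < Q.card + N → StepAt q n

lemma StepAt.congr {q q' : ℕ → ℕ} {n : ℕ} (h : ∀ k ≤ n + 1, q k = q' k) (hs : StepAt q n) :
    StepAt q' n := by
  obtain ⟨h1, ⟨i, hi, h2⟩, h3⟩ := hs
  refine ⟨by rwa [← h (n + 1) le_rfl], ⟨i, hi, ?_⟩, fun p hp hpi => ?_⟩
  · rw [← h (n + 1) le_rfl, ← h n (by omega), ← h i (by omega)]
    exact h2
  · obtain ⟨i, hi, e⟩ := hpi
    rw [← h (n + 1) le_rfl]
    exact h3 p hp ⟨i, hi, by rw [h n (by omega), h i (by omega)]; exact e⟩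

/-- If the process cannot get stuck at the points reachable from `p`, then it makes `N` steps. -/
lemma steps_of_not_stuck {S : Finset ℕ} {p X : ℕ} (hS : ∀ s ∈ S, s.Prime ∧ s ≤ X)
    (hp : p.Prime) (hpX : X < p) (N : ℕ)
    (h : ∀ j < N, ∀ f : Fin j → ℕ, (∀ i, f i ∈ S) → (p + ∑ i, (f i - 1)).Prime →
      ∃ s ∈ S, (p + ∑ i, (f i - 1) + s - 1).Prime) :
    Steps (insert p S) N := by
  classical
  have hpS : p ∉ S := fun hc => by have := (hS p hc).2; omega
  set m := (insert p S).card with hm
  have hmS : m = S.card + 1 := by rw [hm, card_insert_of_notMem hpS]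
  -- the increasing enumeration
  obtain ⟨q0, hq0mono, hq0im, hq0last⟩ : ∃ q : ℕ → ℕ, (∀ i j, i < j → j < m → q i < q j) ∧
      (range m).image q = insert p S ∧ q (m - 1) = p := by
    let e := (insert p S).orderEmbOfFin hm.symm
    let q : ℕ → ℕ := fun n => if hn : n < m then e ⟨n, hn⟩ else 0
    have hqe : ∀ n (hn : n < m), q n = e ⟨n, hn⟩ := fun n hn => dif_pos hn
    have h1 : ∀ i j, i < j → j < m → q i < q j := by
      intro i j hij hj
      rw [hqe i (by omega), hqe j hj]
      exact e.strictMono hij
    have h2 : (range m).image q = insert p S := by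
      ext x
      rw [mem_image]
      constructor
      · rintro ⟨n, hn, rfl⟩
        rw [hqe n (mem_range.mp hn)]
        exact (insert p S).orderEmbOfFin_mem hm.symm _
      · intro hx
        have h3 : x ∈ Set.range e := by
          rw [range_orderEmbOfFin]
          exact hx
        obtain ⟨⟨n, hn⟩, rfl⟩ := h3
        exact ⟨n, mem_range.mpr hn, hqe n hn⟩
    refine ⟨q, h1, h2, ?_⟩
    have h3 : p ∈ (range m).image q := by rw [h2]; exact mem_insert_self _ _
    obtain ⟨n, hn, hnp⟩ := mem_image.mp h3
    rw [mem_range] at hn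
    by_contra hne
    have hlt : n < m - 1 := by
      rcases Nat.lt_or_ge n (m - 1) with h4 | h4
      · exact h4
      · exfalso
        have : n = m - 1 := by omega
        rw [this] at hnp
        exact hne hnp
    have h5 := h1 n (m - 1) hlt (by omega)
    have h6 : q (m - 1) ∈ insert p S := by
      rw [← h2]
      exact mem_image_of_mem _ (mem_range.mpr (by omega))
    rw [hnp] at h5
    rcases mem_insert.mp h6 with h7 | h7
    · omega
    · have := (hS _ h7).2
      omega
  -- induction
  have key : ∀ j ≤ N, ∃ q : ℕ → ℕ, (∀ k < m, q k = q0 k) ∧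
      (∀ k < m + j, q k ∈ S ∨ p ≤ q k) ∧
      (∀ n, m ≤ n + 1 → n + 1 < m + j → StepAt q n) ∧
      ∃ f : Fin j → ℕ, (∀ i, f i ∈ S) ∧ q (m - 1 + j) = p + ∑ i, (f i - 1) ∧
        (q (m - 1 + j)).Prime := by
    intro j
    induction j with
    | zero =>
      intro _
      refine ⟨q0, fun k _ => rfl, fun k hk => ?_, fun n h1 h2 => by omega,
        Fin.elim0, fun i => i.elim0, ?_, ?_⟩
      · have h6 : q0 k ∈ insert p S := by
          rw [← hq0im]
          exact mem_image_of_mem _ (mem_range.mpr (by omega))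
        rcases mem_insert.mp h6 with h7 | h7
        · exact Or.inr h7.ge
        · exact Or.inl h7
      · simp [hq0last]
      · simpa [hq0last] using hp
    | succ j ih =>
      intro hjN
      obtain ⟨q, hq1, hq2, hq3, f, hf1, hf2, hf3⟩ := ih (by omega)
      set v := q (m - 1 + j) with hv
      obtain ⟨s, hs, hsp⟩ := h j (by omega) f hf1 (by rw [← hf2]; exact hf3)
      rw [← hf2] at hsp
      -- the index of `s`
      have hsq : ∃ i, i ≤ m - 1 + j ∧ q i = s := by
        have h6 : s ∈ (range m).image q0 := by rw [hq0im]; exact mem_insert_of_mem hs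
        obtain ⟨i, hi, his⟩ := mem_image.mp h6
        rw [mem_range] at hi
        exact ⟨i, by omega, by rw [hq1 i hi]; exact his⟩
      obtain ⟨i0, hi0, hi0s⟩ := hsq
      have hex : ∃ P : ℕ, P.Prime ∧ ∃ i, i ≤ m - 1 + j ∧ P = v + q i - 1 :=
        ⟨v + s - 1, hsp, i0, hi0, by rw [hi0s]⟩
      set P := Nat.find hex with hP
      obtain ⟨hPp, i1, hi1, hPi⟩ := Nat.find_spec hex
      rw [← hP] at hPp hPi
      have hPle : P ≤ v + s - 1 := Nat.find_min' hex ⟨hsp, i0, hi0, by rw [hi0s]⟩
      have hsX := hS s hs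
      have hs2 := hsX.1.two_le
      have hvp := hf3.two_le
      have hi1S : q i1 ∈ S := by
        rcases hq2 i1 (by omega) with h7 | h7
        · exact h7
        · exfalso
          omega
      have hqi1 := (hS _ hi1S).1.two_le
      set q' := Function.update q (m + j) P with hq'
      have hq'1 : ∀ k < m + j, q' k = q k := fun k hk => by
        rw [hq', Function.update_of_ne (by omega)]
      have hq'2 : q' (m + j) = P := by rw [hq', Function.update_self]
      refine ⟨q', fun k hk => by rw [hq'1 k (by omega)]; exact hq1 k hk, fun k hk => ?_,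
        fun n h1 h2 => ?_, Fin.snoc f (q i1), fun i => ?_, ?_, ?_⟩
      · rcases Nat.lt_or_ge k (m + j) with h8 | h8
        · rw [hq'1 k h8]
          exact hq2 k h8
        · have : k = m + j := by omega
          rw [this, hq'2]
          right
          have : p ≤ v := by rw [hf2]; exact Nat.le_add_right _ _
          omega
      · rcases Nat.lt_or_ge (n + 1) (m + j) with h8 | h8
        · exact (hq3 n h1 h8).congr fun k hk => (hq'1 k (by omega)).symm
        · have hn : n = m - 1 + j := by omega
          have hn1 : n + 1 = m + j := by omega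
          refine ⟨by rw [hn1, hq'2]; exact hPp, ⟨i1, by omega, ?_⟩, fun p' hp' hp'i => ?_⟩
          · rw [hn1, hq'2, hq'1 n (by omega), hq'1 i1 (by omega), hn]
            exact hPi
          · obtain ⟨i, hi, e⟩ := hp'i
            rw [hn1, hq'2]
            refine Nat.find_min' hex ⟨hp', i, by omega, ?_⟩
            rw [e, hq'1 n (by omega), hq'1 i (by omega), hn]
      · refine Fin.lastCases ?_ (fun i => ?_) i
        · rw [Fin.snoc_last]
          exact hi1S
        · rw [Fin.snoc_castSucc]
          exact hf1 i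
      · rw [show m - 1 + (j + 1) = m + j by omega, hq'2, Fin.sum_univ_castSucc]
        simp only [Fin.snoc_castSucc, Fin.snoc_last]
        rw [hPi, hf2]
        omega
      · rw [show m - 1 + (j + 1) = m + j by omega, hq'2]
        exact hPp
  obtain ⟨q, hq1, -, hq3, -⟩ := key N le_rfl
  refine ⟨q, fun i j hij hj => ?_, ?_, hq3⟩
  · rw [hq1 i (by omega), hq1 j hj]
    exact hq0mono i j hij hj
  · refine Eq.trans ?_ hq0im
    ext x
    simp only [mem_image, mem_range]
    constructor
    · rintro ⟨k, hk, rfl⟩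
      exact ⟨k, hk, (hq1 k hk).symm⟩
    · rintro ⟨k, hk, rfl⟩
      exact ⟨k, hk, hq1 k hk⟩

/-- A first step uses an element of the initial set. -/
lemma prime_of_steps {S : Finset ℕ} {p X : ℕ} (hS : ∀ s ∈ S, s.Prime ∧ s ≤ X)
    (hpX : X < p) (h : Steps (insert p S) 1) :
    (2 * p - 1).Prime ∨ ∃ s ∈ S, (p + s - 1).Prime := by
  classical
  have hpS : p ∉ S := fun hc => by have := (hS p hc).2; omega
  obtain ⟨q, h1, h2, h3⟩ := h
  set m := (insert p S).card with hm
  have hmS : m = S.card + 1 := by rw [hm, card_insert_of_notMem hpS]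
  have hmem : ∀ k < m, q k ∈ insert p S := fun k hk => by
    rw [← h2]
    exact mem_image_of_mem _ (mem_range.mpr hk)
  have hlast : q (m - 1) = p := by
    have h3 : p ∈ (range m).image q := by rw [h2]; exact mem_insert_self _ _
    obtain ⟨n, hn, hnp⟩ := mem_image.mp h3
    rw [mem_range] at hn
    by_contra hne
    have hlt : n < m - 1 := by
      rcases Nat.lt_or_ge n (m - 1) with h4 | h4
      · exact h4
      · exfalso
        have : n = m - 1 := by omega
        rw [this] at hnp
        exact hne hnp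
    have h5 := h1 n (m - 1) hlt (by omega)
    rw [hnp] at h5
    rcases mem_insert.mp (hmem (m - 1) (by omega)) with h7 | h7
    · omega
    · have := (hS _ h7).2
      omega
  obtain ⟨h4, ⟨i, hi, h5⟩, -⟩ := h3 (m - 1) (by omega) (by omega)
  rw [h5, hlast] at h4
  rcases mem_insert.mp (hmem i (by omega)) with h7 | h7
  · left
    rw [h7] at h4
    rwa [two_mul]
  · exact Or.inr ⟨q i, h7, h4⟩

end Pool.Agent.Lib.Ulam82
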