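import Pool.Agent.Lib.Sieve4.GapVectors

/-!
# Pairs of primes `(r, p)` with `p + r - 1` prime: upper bound
-/

set_option autoImplicit false

open Finset Filter

namespace Pool.Agent.Lib.Ulam82

open Pool.Agent.Lib.Sieve4

lemma ps_zero (a : ℕ) : ps (fun _ : Fin 1 => a) 0 = 0 := by
  simp [ps]

lemma ps_one (a : ℕ) : ps (fun _ : Fin 1 => a) 1 = a := by
  simp [ps]

theorem pair_sum : ∃ C : ℝ, 0 < C ∧ ∀ᶠ X : ℕ in atTop,
    ∑ p ∈ (Ioc X (2 * X)).filter (fun p : ℕ => p.Prime),
      ((((Icc 1 X).filter fun r : ℕ => r.Prime).filter fun r => (p + r - 1).Prime).card : ℝ) ≤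
      C * ((X / Real.log X) * (X / Real.log X ^ 2)) := by
  classical
  obtain ⟨K, hK, hW⟩ := count_le_WW 1
  obtain ⟨C1, hC1, hsum⟩ := sum_WW_le (3 ^ (1 + 1)) (by positivity) 1 le_rfl
  refine ⟨2 * K * C1 + 1, by positivity, ?_⟩
  have t1 : ∀ᶠ X : ℕ in atTop, 4 * Real.log (X : ℝ) ^ 3 ≤ X := by
    have h1 : ∀ᶠ x : ℝ in atTop, 4 * Real.log x ^ 3 ≤ x := by
      have h2 := (Real.isLittleO_pow_log_id_atTop (n := 3)).bound (show (0 : ℝ) < 1 / 4 by norm_num)
      filter_upwards [h2, eventually_ge_atTop 1] with x hx hx1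
      rw [id, Real.norm_of_nonneg (pow_nonneg (Real.log_nonneg hx1) _),
        Real.norm_of_nonneg (by linarith)] at hx
      linarith
    exact tendsto_natCast_atTop_atTop.eventually h1
  have t2 : ∀ᶠ X : ℕ in atTop, 1 ≤ Real.log (X : ℝ) :=
    (Real.tendsto_log_atTop.comp tendsto_natCast_atTop_atTop).eventually (eventually_ge_atTop 1)
  filter_upwards [t1, t2, eventually_ge_atTop 2] with X hX3 hL1 hX2
  set L := Real.log (X : ℝ) with hLdef
  have hXr : (2 : ℝ) ≤ X := by exact_mod_cast hX2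
  have hL0 : 0 < L := by linarith
  set PI := Fintype.piFinset (fun _ : Fin 1 => gapSet (2 * X)) with hPI
  set cn : (Fin 1 → ℕ) → ℝ := fun g =>
    (((Icc 1 X).filter (fun n : ℕ => ∀ j : Fin (1 + 1), Nat.Prime (n + ps g j))).card : ℝ)
    with hcn
  have h1 : ∑ p ∈ (Ioc X (2 * X)).filter (fun p : ℕ => p.Prime),
      ((((Icc 1 X).filter fun r : ℕ => r.Prime).filter fun r => (p + r - 1).Prime).card : ℝ) ≤
      ∑ p ∈ (Ioc X (2 * X)).filter (fun p : ℕ => p.Prime), cn (fun _ => p - 1) := by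
    refine sum_le_sum fun p hp => ?_
    rw [mem_filter, mem_Ioc] at hp
    have hp2 := hp.2.two_le
    simp only [hcn]
    have hsub : (((Icc 1 X).filter fun r : ℕ => r.Prime).filter fun r => (p + r - 1).Prime) ⊆
        (Icc 1 X).filter (fun n : ℕ => ∀ j : Fin (1 + 1),
          Nat.Prime (n + ps (fun _ : Fin 1 => p - 1) j)) := by
      intro r hr
      rw [mem_filter, mem_filter] at hr
      rw [mem_filter]
      refine ⟨hr.1.1, fun j => ?_⟩
      have hj : j = 0 ∨ j = 1 := by
        rcases j with ⟨j, hj⟩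
        rcases j with - | j
        · exact Or.inl rfl
        · right
          apply Fin.ext
          simp
          omega
      rcases hj with rfl | rfl
      · rw [ps_zero]
        exact hr.1.2
      · rw [ps_one, show r + (p - 1) = p + r - 1 by omega]
        exact hr.2
    exact_mod_cast card_le_card hsub
  have hcn0 : ∀ g, 0 ≤ cn g := fun g => Nat.cast_nonneg _
  have h2 : ∑ p ∈ (Ioc X (2 * X)).filter (fun p : ℕ => p.Prime), cn (fun _ => p - 1) ≤
      ∑ g ∈ PI, cn g := by
    have hinj : Set.InjOn (fun p : ℕ => (fun _ : Fin 1 => p - 1))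
        ((Ioc X (2 * X)).filter (fun p : ℕ => p.Prime)) := by
      intro p hp p' hp' h
      have hp1 := (mem_filter.mp (mem_coe.mp hp)).2.two_le
      have hp2 := (mem_filter.mp (mem_coe.mp hp')).2.two_le
      have h3 : p - 1 = p' - 1 := congrFun h 0
      omega
    rw [← sum_image hinj]
    refine sum_le_sum_of_subset_of_nonneg ?_ fun g _ _ => hcn0 g
    intro g hg
    obtain ⟨p, hp, rfl⟩ := mem_image.mp hg
    rw [mem_filter, mem_Ioc] at hp
    have hp2 := hp.2.two_le
    rw [hPI, Fintype.mem_piFinset]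
    intro _
    rw [gapSet, mem_filter, mem_Icc]
    refine ⟨⟨by omega, by omega⟩, ?_⟩
    rw [show p - 1 + 1 = p by omega]
    exact hp.2
  have h3 : ∀ g ∈ PI, cn g ≤ K * WW (3 ^ (1 + 1)) g * (X / L ^ (1 + 1)) + (1 + 1) := by
    intro g hg
    have h4 := hW g (fun l => by
      have := Fintype.mem_piFinset.mp hg l
      rw [gapSet, mem_filter, mem_Icc] at this
      exact this.1.1) X hX2
    exact_mod_cast h4
  have h4 := hsum (2 * X) (by omega)
  have hcard : (PI.card : ℝ) ≤ 2 * X := by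
    have h5 : PI.card ≤ 2 * X := by
      rw [hPI, Fintype.card_piFinset, prod_const, card_univ, Fintype.card_fin, pow_one, gapSet]
      exact (card_filter_le _ _).trans (by rw [Nat.card_Icc]; omega)
    exact_mod_cast h5
  have hlog : L ≤ Real.log ((2 * X : ℕ) : ℝ) := by
    refine Real.log_le_log (by linarith) ?_
    push_cast
    linarith
  have h5 : (((2 * X : ℕ) : ℝ) / Real.log ((2 * X : ℕ) : ℝ)) ^ 1 ≤ 2 * (X / L) := by
    rw [pow_one, ← mul_div_assoc]
    have : ((2 * X : ℕ) : ℝ) = 2 * X := by push_cast; rfl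
    rw [this] at hlog ⊢
    gcongr
  calc _ ≤ ∑ g ∈ PI, cn g := h1.trans h2
    _ ≤ ∑ g ∈ PI, (K * WW (3 ^ (1 + 1)) g * (X / L ^ (1 + 1)) + (1 + 1)) := sum_le_sum h3
    _ = K * (X / L ^ 2) * ∑ g ∈ PI, WW (3 ^ (1 + 1)) g + 2 * PI.card := by
        rw [sum_add_distrib, sum_const, nsmul_eq_mul, mul_sum]
        congr 1
        · refine sum_congr rfl fun g _ => ?_
          norm_num
          ring
        · ring
    _ ≤ K * (X / L ^ 2) * (C1 * (2 * (X / L))) + 2 * (2 * X) := by
        refine add_le_add ?_ (by linarith)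
        refine mul_le_mul_of_nonneg_left ?_ (by positivity)
        exact h4.trans (mul_le_mul_of_nonneg_left h5 hC1.le)
    _ ≤ (2 * K * C1 + 1) * ((X / L) * (X / L ^ 2)) := by
        have h6 : 2 * (2 * (X : ℝ)) ≤ (X / L) * (X / L ^ 2) := by
          rw [div_mul_div_comm, le_div_iff₀ (by positivity)]
          have : L * L ^ 2 = L ^ 3 := by ring
          rw [this]
          nlinarith
        have h7 : K * (X / L ^ 2) * (C1 * (2 * (X / L))) =
            (2 * K * C1) * ((X / L) * (X / L ^ 2)) := by ring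
        rw [h7, add_mul, one_mul]
        linarith

end Pool.Agent.Lib.Ulam82
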