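import Pool.Agent.Lib.AS.CntBound

/-!
# Upper bound for prime triples, uniform in the differences
-/

set_option autoImplicit false

open Finset Filter

namespace Pool.Agent.Lib.Ulam82

open Pool.Agent.HLB

theorem trip_upper : ∀ᶠ X : ℕ in atTop, ∀ a b : ℕ, 1 ≤ a → a < b → (b : ℝ) ≤ X * Real.log X →
    (((Icc 1 X).filter fun r : ℕ => r.Prime ∧ (r + a).Prime ∧ (r + b).Prime).card : ℝ)
      ≤ X / Real.log X ^ (5 / 2 : ℝ) := by
  obtain ⟨C, hC, hcnt⟩ := Pool.Agent.AS.cnt_upper_all 3 1 (by norm_num)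
  have hlog : Tendsto (fun X : ℕ => Real.log (X : ℝ)) atTop atTop :=
    Real.tendsto_log_atTop.comp tendsto_natCast_atTop_atTop
  -- `C * (log L)^3 ≤ L^(1/2)` for large `L`
  have h1 : ∀ᶠ L : ℝ in atTop, C * Real.log L ^ 3 ≤ L ^ (1 / 2 : ℝ) := by
    have h2 : (fun L : ℝ => Real.log L ^ (3 : ℝ)) =o[atTop] fun L : ℝ => L ^ (1 / 2 : ℝ) :=
      isLittleO_log_rpow_rpow_atTop 3 (by norm_num)
    have hc : 0 < 1 / C := by positivity
    filter_upwards [h2.bound hc, eventually_ge_atTop (1 : ℝ)] with L hL hL1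
    have hlL : 0 ≤ Real.log L := Real.log_nonneg hL1
    have hp : 0 ≤ L ^ (1 / 2 : ℝ) := by positivity
    rw [Real.norm_of_nonneg (by positivity), Real.norm_of_nonneg hp] at hL
    have e : Real.log L ^ (3 : ℝ) = Real.log L ^ 3 := by
      rw [← Real.rpow_natCast]
      norm_num
    rw [e] at hL
    calc C * Real.log L ^ 3 ≤ C * (1 / C * L ^ (1 / 2 : ℝ)) := by gcongr
      _ = L ^ (1 / 2 : ℝ) := by field_simp
  filter_upwards [hcnt, hlog.eventually h1, hlog.eventually (eventually_ge_atTop (2 : ℝ)),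
    eventually_ge_atTop 2] with X hX hX1 hX2 hX3 a b ha hab hb
  have hXpos : (0 : ℝ) < X := by exact_mod_cast (by omega : 0 < X)
  have hLpos : (0 : ℝ) < Real.log X := by linarith
  have habR : (a : ℝ) ≤ b := by exact_mod_cast hab.le
  have h5 := hX (Fin 3) ![0, a, b] (by simp) (by
    intro i
    rw [pow_one]
    fin_cases i
    · simp only [Fin.zero_eta, Matrix.cons_val_zero, Nat.cast_zero]
      positivity
    · show ((a : ℕ) : ℝ) ≤ _
      linarith
    · show ((b : ℕ) : ℝ) ≤ _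
      linarith)
  have h6 : (univ.image (![0, a, b] : Fin 3 → ℕ)).card = 3 := by
    have hmono : StrictMono (![0, a, b] : Fin 3 → ℕ) := by
      rw [Fin.strictMono_iff_lt_succ]
      intro i
      fin_cases i
      · show 0 < a
        omega
      · show a < b
        exact hab
    rw [Finset.card_image_of_injective _ hmono.injective]
    simp
  rw [h6] at h5
  have h7 : cnt (![0, a, b] : Fin 3 → ℕ) X
      = ((Icc 1 X).filter fun r : ℕ => r.Prime ∧ (r + a).Prime ∧ (r + b).Prime).card := by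
    unfold cnt
    congr 1
    ext n
    simp [Fin.forall_fin_succ]
  rw [h7] at h5
  refine h5.trans ?_
  have h8 : Real.log X ^ (5 / 2 : ℝ) = Real.log X ^ 3 / Real.log X ^ (1 / 2 : ℝ) := by
    have e : (5 / 2 : ℝ) = 3 - 1 / 2 := by norm_num
    rw [e, Real.rpow_sub hLpos]
    norm_num
  rw [h8]
  have h9 : 0 < Real.log X ^ (1 / 2 : ℝ) := Real.rpow_pos_of_pos hLpos _
  calc C * Real.log (Real.log X) ^ 3 * (X / Real.log X ^ 3)
      ≤ Real.log X ^ (1 / 2 : ℝ) * (X / Real.log X ^ 3) := by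
        apply mul_le_mul_of_nonneg_right hX1
        positivity
    _ = X / (Real.log X ^ 3 / Real.log X ^ (1 / 2 : ℝ)) := by
        field_simp

end Pool.Agent.Lib.Ulam82
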