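import Pool.Agent.Lib.Ulam82.Walk

/-!
# The number of starting points with a stuck greedy walk
-/

set_option autoImplicit false

open Finset

namespace Pool.Agent.Lib.Ulam82

variable {D : ℕ}

open Classical in
/-- The starting points which follow the walk `t`. -/
noncomputable def FW (P P' : Finset ℕ) (t : List (Fin D)) : Finset ((Fin D → ℕ) × ℕ) :=
  ((Fintype.piFinset fun _ : Fin D => P) ×ˢ P').filter fun w => Walk w.1 w.2 t

open Classical in
/-- The starting points which follow the walk `t` and then are stuck at a point outside `V`. -/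
noncomputable def TW (P P' V : Finset ℕ) (t : List (Fin D)) : Finset ((Fin D → ℕ) × ℕ) :=
  (FW P P' t).filter fun w => pt w.1 w.2 t ∉ V ∧ ∀ l, ¬ (pt w.1 w.2 t + w.1 l - 1).Prime

lemma card_TW {N X : ℕ} {P P' V : Finset ℕ} {ρ : ℝ} (hρ0 : 0 ≤ ρ) (hρ1 : ρ ≤ 1)
    (hP : ∀ s ∈ P, s.Prime ∧ s ≤ X) (hP' : ∀ p ∈ P', p.Prime ∧ X < p ∧ p ≤ 2 * X)
    (hH : ∀ v : ℕ, v.Prime → v ≤ (N + 2) * X → v ∉ V → ∀ U : Finset ℕ, U.card ≤ N →
      (∀ u ∈ U, X < u ∧ u < v) → ρ * P.card ≤
        ((P.filter fun r => (v + r - 1).Prime ∧ ∀ u ∈ U, ¬ (u + r - 1).Prime).card : ℝ))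
    (t : List (Fin D)) (ht : t.length < N) :
    ((TW P P' V t).card : ℝ) ≤ (1 - ρ) ^ (D - N) * (FW P P' t).card := by
  classical
  set J := t.toFinset with hJ
  have hJN : J.card ≤ N := (List.toFinset_card_le t).trans ht.le
  have hτ0 : 0 ≤ 1 - ρ := by linarith
  have hτ1 : 1 - ρ ≤ 1 := by linarith
  set g : (Fin D → ℕ) × ℕ → (Fin D → ℕ) × ℕ := fun w => (fun i => if i ∈ J then w.1 i else 0, w.2)
    with hg
  have hmemJ : ∀ a ∈ t, a ∈ J := fun a ha => List.mem_toFinset.mpr ha
  have hFm : ∀ w, w ∈ FW P P' t ↔ ((∀ i, w.1 i ∈ P) ∧ w.2 ∈ P') ∧ Walk w.1 w.2 t := by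
    intro w
    rw [FW, mem_filter, mem_product, Fintype.mem_piFinset]
  have hTm : ∀ w, w ∈ TW P P' V t ↔ w ∈ FW P P' t ∧
      (pt w.1 w.2 t ∉ V ∧ ∀ l, ¬ (pt w.1 w.2 t + w.1 l - 1).Prime) := by
    intro w
    rw [TW, mem_filter]
  have hfib : ∀ b ∈ (TW P P' V t).image g, (((TW P P' V t).filter fun w => g w = b).card : ℝ) ≤
      (1 - ρ) ^ (D - N) * ((FW P P' t).filter fun w => g w = b).card := by
    intro b hb
    obtain ⟨w0, hw0, hw0b⟩ := mem_image.mp hb
    obtain ⟨hw0F, hw0V, -⟩ := (hTm w0).mp hw0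
    obtain ⟨⟨hw0P, hw0P'⟩, hw0W⟩ := (hFm w0).mp hw0F
    have hb2 : b.2 = w0.2 := by rw [← hw0b]
    have hb1 : ∀ i ∈ J, b.1 i = w0.1 i := fun i hi => by
      rw [← hw0b]
      exact if_pos hi
    have hb0 : ∀ i, i ∉ J → b.1 i = 0 := fun i hi => by
      rw [← hw0b]
      exact if_neg hi
    have hbt : ∀ a ∈ t, b.1 a = w0.1 a := fun a ha => hb1 a (hmemJ a ha)
    set v := pt b.1 b.2 t with hv
    have hv0 : v = pt w0.1 w0.2 t := by rw [hv, hb2, pt_congr hbt]
    set Fl : Fin D → Finset ℕ := fun l => P.filter fun r => Fb b.1 b.2 l r t with hFl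
    set Rc : Fin D → Finset ℕ := fun l => (Fl l).filter fun r => ¬ (v + r - 1).Prime with hRc
    have hwt : ∀ w : (Fin D → ℕ) × ℕ, g w = b → ∀ a ∈ t, w.1 a = b.1 a := fun w hw a ha => by
      rw [← hw]
      exact (if_pos (hmemJ a ha)).symm
    have hw2 : ∀ w : (Fin D → ℕ) × ℕ, g w = b → w.2 = b.2 := fun w hw => by
      rw [← hw]
    have hup : ((TW P P' V t).filter fun w => g w = b) ⊆
        (Fintype.piFinset fun l : Fin D => if l ∈ J then {b.1 l} else Rc l) ×ˢ {b.2} := by
      intro w hw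
      rw [mem_filter] at hw
      obtain ⟨hwF, -, hwst⟩ := (hTm w).mp hw.1
      obtain ⟨⟨hwP, -⟩, hwW⟩ := (hFm w).mp hwF
      have e2 := hw2 w hw.2
      have e1 := hwt w hw.2
      rw [mem_product, Fintype.mem_piFinset, mem_singleton]
      refine ⟨fun l => ?_, e2⟩
      split_ifs with hl
      · rw [mem_singleton, ← hw.2]
        exact (if_pos hl).symm
      · simp only [hRc, hFl, mem_filter]
        refine ⟨⟨hwP l, ?_⟩, ?_⟩
        · rw [← Fb_congr e1, ← e2]
          exact hwW.2 l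
        · rw [hv, ← pt_congr e1, ← e2]
          exact hwst l
    have hlow : (Fintype.piFinset fun l : Fin D => if l ∈ J then {b.1 l} else Fl l) ×ˢ {b.2} ⊆
        (FW P P' t).filter fun w => g w = b := by
      intro w hw
      rw [mem_product, Fintype.mem_piFinset, mem_singleton] at hw
      have e2 : w.2 = w0.2 := by rw [hw.2, hb2]
      have eJ : ∀ l ∈ J, w.1 l = b.1 l := fun l hl => by
        have := hw.1 l
        rw [if_pos hl, mem_singleton] at this
        exact this
      have eN : ∀ l, l ∉ J → w.1 l ∈ P ∧ Fb b.1 b.2 l (w.1 l) t := fun l hl => by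
        have := hw.1 l
        rw [if_neg hl] at this
        simpa only [hFl, mem_filter] using this
      have et0 : ∀ a ∈ t, w.1 a = w0.1 a := fun a ha => by
        rw [eJ a (hmemJ a ha), hb1 a (hmemJ a ha)]
      have etb : ∀ a ∈ t, w.1 a = b.1 a := fun a ha => eJ a (hmemJ a ha)
      rw [mem_filter, hFm]
      refine ⟨⟨⟨fun l => ?_, by rw [e2]; exact hw0P'⟩, ?_, fun l => ?_⟩, ?_⟩
      · by_cases hl : l ∈ J
        · rw [eJ l hl, hb1 l hl]
          exact hw0P l
        · exact (eN l hl).1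
      · rw [e2, Pr_congr et0]
        exact hw0W.1
      · by_cases hl : l ∈ J
        · have h1 := hw0W.2 l
          rw [e2, Fb_congr et0, eJ l hl, hb1 l hl]
          exact h1
        · rw [Fb_congr etb, hw.2]
          exact (eN l hl).2
      · refine Prod.ext (funext fun i => ?_) hw.2
        show (if i ∈ J then w.1 i else 0) = b.1 i
        split_ifs with hi
        · exact eJ i hi
        · exact (hb0 i hi).symm
    -- the factors
    have hvp : v.Prime := by
      rw [hv0]
      exact hw0W.prime (hP' _ hw0P').1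
    have hvY : v ≤ (N + 2) * X := by
      rw [hv0]
      have h1 := pt_le (σ := w0.1) (p := w0.2) (X := X) (t := t) fun a _ => (hP _ (hw0P a)).2
      have h2 := (hP' _ hw0P').2.2
      have h3 : t.length * X ≤ N * X := Nat.mul_le_mul_right _ ht.le
      calc pt w0.1 w0.2 t ≤ 2 * X + N * X := by omega
        _ = (N + 2) * X := by ring
    have hvV : v ∉ V := by
      rw [hv0]
      exact hw0V
    have hHv := hH v hvp hvY hvV (pts w0.1 w0.2 t) (card_pts.trans ht.le) fun u hu => by
      refine ⟨lt_of_lt_of_le (hP' _ hw0P').2.1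
        (le_pts (fun a _ => (hP _ (hw0P a)).1.one_lt.le) u hu), ?_⟩
      rw [hv0]
      exact pts_lt (fun a _ => (hP _ (hw0P a)).1.two_le) u hu
    have hfac : ∀ l, ((Rc l).card : ℝ) ≤ (1 - ρ) * (Fl l).card := by
      intro l
      have h1 : ((Fl l).filter fun r => (v + r - 1).Prime).card + (Rc l).card = (Fl l).card :=
        card_filter_add_card_filter_not _
      have h2 : ((((Fl l).filter fun r => (v + r - 1).Prime).card : ℝ)) + (Rc l).card =
          (Fl l).card := by exact_mod_cast h1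
      have h3 : (P.filter fun r => (v + r - 1).Prime ∧
          ∀ u ∈ pts w0.1 w0.2 t, ¬ (u + r - 1).Prime) ⊆
          (Fl l).filter fun r => (v + r - 1).Prime := by
        intro r hr
        rw [mem_filter] at hr
        simp only [hFl, mem_filter]
        refine ⟨⟨hr.1, Fb_of_not ?_⟩, hr.2.1⟩
        rw [hb2, pts_congr hbt]
        exact hr.2.2
      have h4 : ρ * P.card ≤ ((((Fl l).filter fun r => (v + r - 1).Prime).card : ℝ)) := by
        refine hHv.trans ?_
        exact_mod_cast card_le_card h3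
      have h5 : ((Fl l).card : ℝ) ≤ P.card := by
        exact_mod_cast card_le_card (filter_subset _ _)
      have h6 : ρ * (Fl l).card ≤ ρ * P.card := mul_le_mul_of_nonneg_left h5 hρ0
      linarith
    have c1 := card_le_card hup
    have c2 := card_le_card hlow
    rw [card_product, card_singleton, mul_one, Fintype.card_piFinset] at c1 c2
    have c1' : ((((TW P P' V t).filter fun w => g w = b).card : ℝ)) ≤
        ∏ l : Fin D, ((if l ∈ J then ({b.1 l} : Finset ℕ) else Rc l).card : ℝ) := by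
      exact_mod_cast c1
    have c2' : ∏ l : Fin D, ((if l ∈ J then ({b.1 l} : Finset ℕ) else Fl l).card : ℝ) ≤
        (((FW P P' t).filter fun w => g w = b).card : ℝ) := by
      exact_mod_cast c2
    have hprod : ∏ l : Fin D, ((if l ∈ J then ({b.1 l} : Finset ℕ) else Rc l).card : ℝ) ≤
        (∏ l : Fin D, (if l ∈ J then (1 : ℝ) else 1 - ρ)) *
          ∏ l : Fin D, ((if l ∈ J then ({b.1 l} : Finset ℕ) else Fl l).card : ℝ) := by
      rw [← prod_mul_distrib]
      refine prod_le_prod (fun l _ => Nat.cast_nonneg _) fun l _ => ?_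
      split_ifs with hl
      · simp
      · exact hfac l
    have hτp : ∏ l : Fin D, (if l ∈ J then (1 : ℝ) else 1 - ρ) = (1 - ρ) ^ (D - J.card) := by
      rw [prod_ite, prod_const_one, one_mul, prod_const]
      congr 1
      have e2 : (univ.filter fun i : Fin D => ¬ i ∈ J) = Jᶜ := by
        ext i
        simp
      rw [e2, card_compl, Fintype.card_fin]
    have hpow : (1 - ρ) ^ (D - J.card) ≤ (1 - ρ) ^ (D - N) :=
      pow_le_pow_of_le_one hτ0 hτ1 (by omega)
    calc ((((TW P P' V t).filter fun w => g w = b).card : ℝ))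
        ≤ (1 - ρ) ^ (D - J.card) *
          ∏ l : Fin D, ((if l ∈ J then ({b.1 l} : Finset ℕ) else Fl l).card : ℝ) := by
          rw [← hτp]
          exact c1'.trans hprod
      _ ≤ (1 - ρ) ^ (D - N) * (((FW P P' t).filter fun w => g w = b).card : ℝ) :=
          mul_le_mul hpow c2' (prod_nonneg fun l _ => Nat.cast_nonneg _) (pow_nonneg hτ0 _)
  have hTF : TW P P' V t ⊆ FW P P' t := filter_subset _ _
  calc ((TW P P' V t).card : ℝ)
      = ∑ b ∈ (TW P P' V t).image g, (((TW P P' V t).filter fun w => g w = b).card : ℝ) := by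
        rw [card_eq_sum_card_image g (TW P P' V t)]
        push_cast
        rfl
    _ ≤ ∑ b ∈ (TW P P' V t).image g,
        (1 - ρ) ^ (D - N) * (((FW P P' t).filter fun w => g w = b).card : ℝ) := sum_le_sum hfib
    _ ≤ ∑ b ∈ (FW P P' t).image g,
        (1 - ρ) ^ (D - N) * (((FW P P' t).filter fun w => g w = b).card : ℝ) :=
        sum_le_sum_of_subset_of_nonneg (image_subset_image hTF) fun b _ _ =>
          mul_nonneg (pow_nonneg hτ0 _) (Nat.cast_nonneg _)
    _ = (1 - ρ) ^ (D - N) * (FW P P' t).card := by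
        rw [← mul_sum, card_eq_sum_card_image g (FW P P' t)]
        push_cast
        rfl

/-- **The count.** -/
theorem card_not_steps' {N X : ℕ} {P P' V : Finset ℕ} {ρ : ℝ} (hρ0 : 0 ≤ ρ) (hρ1 : ρ ≤ 1)
    (hP : ∀ s ∈ P, s.Prime ∧ s ≤ X) (hP' : ∀ p ∈ P', p.Prime ∧ X < p ∧ p ≤ 2 * X)
    (hH : ∀ v : ℕ, v.Prime → v ≤ (N + 2) * X → v ∉ V → ∀ U : Finset ℕ, U.card ≤ N →
      (∀ u ∈ U, X < u ∧ u < v) → ρ * P.card ≤
        ((P.filter fun r => (v + r - 1).Prime ∧ ∀ u ∈ U, ¬ (u + r - 1).Prime).card : ℝ))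
    (B : Finset ((Fin D → ℕ) × ℕ))
    (hB : ∀ w ∈ B, (∀ i, w.1 i ∈ P) ∧ w.2 ∈ P' ∧ ¬ Steps (insert w.2 (univ.image w.1)) N) :
    (B.card : ℝ) ≤ N * ((1 - ρ) ^ (D - N) * ((P.card : ℝ) ^ D * P'.card) +
      ((D : ℝ) + 1) ^ N * ((P.card : ℝ) ^ D * V.card)) := by
  classical
  have hτ0 : 0 ≤ 1 - ρ := by linarith
  set W := (Fintype.piFinset fun _ : Fin D => P) ×ˢ P' with hW
  have hWc : (W.card : ℝ) = (P.card : ℝ) ^ D * P'.card := by
    rw [hW, card_product, Fintype.card_piFinset, prod_const, card_univ, Fintype.card_fin]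
    push_cast
    rfl
  set VW : List (Fin D) → Finset ((Fin D → ℕ) × ℕ) := fun t => W.filter fun w =>
    pt w.1 w.2 t ∈ V with hVW
  have hVWc : ∀ t, ((VW t).card : ℝ) ≤ (P.card : ℝ) ^ D * V.card := by
    intro t
    have h2 : (VW t).card ≤ ((Fintype.piFinset fun _ : Fin D => P) ×ˢ V).card := by
      refine card_le_card_of_injOn (fun w => (w.1, pt w.1 w.2 t)) ?_ ?_
      · intro w hw
        have hw' := mem_filter.mp (mem_coe.mp hw)
        exact mem_coe.mpr (mem_product.mpr ⟨(mem_product.mp hw'.1).1, hw'.2⟩)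
      · intro w hw w' _ hww
        have hw' := mem_filter.mp (mem_coe.mp hw)
        have hwP := Fintype.mem_piFinset.mp (mem_product.mp hw'.1).1
        have hww' : (w.1, pt w.1 w.2 t) = (w'.1, pt w'.1 w'.2 t) := hww
        obtain ⟨e1, e2⟩ := Prod.mk.inj hww'
        rw [← e1] at e2
        exact Prod.ext e1 (pt_inj (fun a _ => (hP _ (hwP a)).1.one_lt.le) e2)
    rw [card_product, Fintype.card_piFinset, prod_const, card_univ, Fintype.card_fin] at h2
    exact_mod_cast h2
  have hsub : B ⊆ (range N).biUnion fun j =>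
      ((univ : Finset (Fin j → Fin D)).biUnion fun κ => TW P P' V (List.ofFn κ)) ∪
      ((univ : Finset (Fin j → Fin D)).biUnion fun κ => VW (List.ofFn κ)) := by
    intro w hw
    obtain ⟨h1, h2, h3⟩ := hB w hw
    by_contra hcon
    apply h3
    refine steps_of_walk (X := X) (fun i => hP _ (h1 i)) (hP' _ h2).1 (hP' _ h2).2.1 N ?_
    intro t ht htW
    by_contra hno
    push Not at hno
    apply hcon
    rw [mem_biUnion]
    refine ⟨t.length, mem_range.mpr ht, ?_⟩
    have hof : List.ofFn t.get = t := List.ofFn_get t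
    have hwW : w ∈ W := by
      rw [hW, mem_product, Fintype.mem_piFinset]
      exact ⟨h1, h2⟩
    rw [mem_union]
    by_cases hv : pt w.1 w.2 t ∈ V
    · right
      rw [mem_biUnion]
      refine ⟨t.get, mem_univ _, ?_⟩
      rw [hof]
      exact mem_filter.mpr ⟨hwW, hv⟩
    · left
      rw [mem_biUnion]
      refine ⟨t.get, mem_univ _, ?_⟩
      rw [hof, TW, mem_filter, FW, mem_filter]
      exact ⟨⟨hwW, htW⟩, hv, hno⟩
  have hFsum : ∀ j, ∑ κ : Fin j → Fin D, ((FW P P' (List.ofFn κ)).card : ℝ) ≤ W.card := by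
    intro j
    have h1 : ((univ : Finset (Fin j → Fin D)).biUnion fun κ => FW P P' (List.ofFn κ)).card =
        ∑ κ : Fin j → Fin D, (FW P P' (List.ofFn κ)).card := by
      refine card_biUnion fun κ _ κ' _ hne => ?_
      show Disjoint (FW P P' (List.ofFn κ)) (FW P P' (List.ofFn κ'))
      rw [disjoint_left]
      intro w hw hw'
      apply hne
      rw [FW, mem_filter] at hw hw'
      exact List.ofFn_injective (walk_unique hw.2 hw'.2 (by simp))
    have h2 : ((univ : Finset (Fin j → Fin D)).biUnion fun κ => FW P P' (List.ofFn κ)) ⊆ W := by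
      intro w hw
      obtain ⟨κ, -, hκ⟩ := mem_biUnion.mp hw
      rw [FW, mem_filter] at hκ
      exact hκ.1
    have h3 := card_le_card h2
    rw [h1] at h3
    exact_mod_cast h3
  have hj : ∀ j ∈ range N, ((((univ : Finset (Fin j → Fin D)).biUnion fun κ =>
      TW P P' V (List.ofFn κ)) ∪ ((univ : Finset (Fin j → Fin D)).biUnion fun κ =>
      VW (List.ofFn κ))).card : ℝ) ≤
      (1 - ρ) ^ (D - N) * W.card + ((D : ℝ) + 1) ^ N * ((P.card : ℝ) ^ D * V.card) := by
    intro j hj
    rw [mem_range] at hj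
    have a1 : (((univ : Finset (Fin j → Fin D)).biUnion fun κ =>
        TW P P' V (List.ofFn κ)).card : ℝ) ≤ (1 - ρ) ^ (D - N) * W.card := by
      calc (((univ : Finset (Fin j → Fin D)).biUnion fun κ => TW P P' V (List.ofFn κ)).card : ℝ)
          ≤ ∑ κ : Fin j → Fin D, ((TW P P' V (List.ofFn κ)).card : ℝ) := by
            exact_mod_cast card_biUnion_le
        _ ≤ ∑ κ : Fin j → Fin D, (1 - ρ) ^ (D - N) * ((FW P P' (List.ofFn κ)).card : ℝ) :=
            sum_le_sum fun κ _ => card_TW hρ0 hρ1 hP hP' hH _ (by rw [List.length_ofFn]; exact hj)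
        _ = (1 - ρ) ^ (D - N) * ∑ κ : Fin j → Fin D, ((FW P P' (List.ofFn κ)).card : ℝ) := by
            rw [mul_sum]
        _ ≤ _ := mul_le_mul_of_nonneg_left (hFsum j) (pow_nonneg hτ0 _)
    have a2 : (((univ : Finset (Fin j → Fin D)).biUnion fun κ => VW (List.ofFn κ)).card : ℝ) ≤
        ((D : ℝ) + 1) ^ N * ((P.card : ℝ) ^ D * V.card) := by
      calc (((univ : Finset (Fin j → Fin D)).biUnion fun κ => VW (List.ofFn κ)).card : ℝ)
          ≤ ∑ κ : Fin j → Fin D, ((VW (List.ofFn κ)).card : ℝ) := by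
            exact_mod_cast card_biUnion_le
        _ ≤ ∑ _κ : Fin j → Fin D, (P.card : ℝ) ^ D * V.card := sum_le_sum fun κ _ => hVWc _
        _ = (D : ℝ) ^ j * ((P.card : ℝ) ^ D * V.card) := by
            rw [sum_const, card_univ, Fintype.card_fun, Fintype.card_fin, Fintype.card_fin,
              nsmul_eq_mul]
            push_cast
            rfl
        _ ≤ _ := by
            refine mul_le_mul_of_nonneg_right ?_ (by positivity)
            have hD0 : (0 : ℝ) ≤ D := Nat.cast_nonneg _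
            calc (D : ℝ) ^ j ≤ ((D : ℝ) + 1) ^ j := pow_le_pow_left₀ hD0 (by linarith) _
              _ ≤ ((D : ℝ) + 1) ^ N := pow_le_pow_right₀ (by linarith) hj.le
    have a3 : ((((univ : Finset (Fin j → Fin D)).biUnion fun κ =>
        TW P P' V (List.ofFn κ)) ∪ ((univ : Finset (Fin j → Fin D)).biUnion fun κ =>
        VW (List.ofFn κ))).card : ℝ) ≤ (((univ : Finset (Fin j → Fin D)).biUnion fun κ =>
        TW P P' V (List.ofFn κ)).card : ℝ) + (((univ : Finset (Fin j → Fin D)).biUnion fun κ =>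
        VW (List.ofFn κ)).card : ℝ) := by exact_mod_cast card_union_le _ _
    linarith
  calc (B.card : ℝ) ≤ (((range N).biUnion fun j =>
        ((univ : Finset (Fin j → Fin D)).biUnion fun κ => TW P P' V (List.ofFn κ)) ∪
        ((univ : Finset (Fin j → Fin D)).biUnion fun κ => VW (List.ofFn κ))).card : ℝ) := by
        exact_mod_cast card_le_card hsub
    _ ≤ ∑ j ∈ range N, ((((univ : Finset (Fin j → Fin D)).biUnion fun κ =>
        TW P P' V (List.ofFn κ)) ∪ ((univ : Finset (Fin j → Fin D)).biUnion fun κ =>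
        VW (List.ofFn κ))).card : ℝ) := by exact_mod_cast card_biUnion_le
    _ ≤ ∑ _j ∈ range N, ((1 - ρ) ^ (D - N) * W.card +
        ((D : ℝ) + 1) ^ N * ((P.card : ℝ) ^ D * V.card)) := sum_le_sum hj
    _ = _ := by rw [sum_const, card_range, nsmul_eq_mul, hWc]

end Pool.Agent.Lib.Ulam82
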