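import Pool.Agent.Lib.Ulam82.Proc

/-!
# The greedy walk of the process through the initial primes
-/

set_option autoImplicit false

open Finset

namespace Pool.Agent.Lib.Ulam82

variable {D : ℕ}

/-- The position after the steps in the list (last step first). -/
def pt (σ : Fin D → ℕ) (p : ℕ) : List (Fin D) → ℕ
  | [] => p
  | a :: t => pt σ p t + σ a - 1

/-- The condition on the value `r` at the index `l`. -/
def Fb (σ : Fin D → ℕ) (p : ℕ) (l : Fin D) (r : ℕ) : List (Fin D) → Prop
  | [] => True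
  | a :: t => Fb σ p l r t ∧ ((pt σ p t + r - 1).Prime → σ a < r ∨ (σ a = r ∧ a ≤ l))

/-- All positions after a step are prime. -/
def Pr (σ : Fin D → ℕ) (p : ℕ) : List (Fin D) → Prop
  | [] => True
  | a :: t => Pr σ p t ∧ (pt σ p t + σ a - 1).Prime

/-- The greedy walk: at each step the least admissible value is used, and the least index which
has this value. -/
def Walk (σ : Fin D → ℕ) (p : ℕ) (t : List (Fin D)) : Prop :=
  Pr σ p t ∧ ∀ l, Fb σ p l (σ l) t

/-- The earlier positions. -/
def pts (σ : Fin D → ℕ) (p : ℕ) : List (Fin D) → Finset ℕ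
  | [] => ∅
  | _ :: t => insert (pt σ p t) (pts σ p t)

lemma pt_congr {σ σ' : Fin D → ℕ} {p : ℕ} : ∀ {t : List (Fin D)}, (∀ a ∈ t, σ a = σ' a) →
    pt σ p t = pt σ' p t
  | [], _ => rfl
  | a :: t, h => by
    rw [pt, pt, pt_congr fun b hb => h b (List.mem_cons_of_mem a hb), h a List.mem_cons_self]

lemma pts_congr {σ σ' : Fin D → ℕ} {p : ℕ} : ∀ {t : List (Fin D)}, (∀ a ∈ t, σ a = σ' a) →
    pts σ p t = pts σ' p t
  | [], _ => rfl
  | a :: t, h => by
    rw [pts, pts, pt_congr fun b hb => h b (List.mem_cons_of_mem a hb),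
      pts_congr fun b hb => h b (List.mem_cons_of_mem a hb)]

lemma Fb_congr {σ σ' : Fin D → ℕ} {p : ℕ} {l : Fin D} {r : ℕ} : ∀ {t : List (Fin D)},
    (∀ a ∈ t, σ a = σ' a) → (Fb σ p l r t ↔ Fb σ' p l r t)
  | [], _ => Iff.rfl
  | a :: t, h => by
    rw [Fb, Fb, pt_congr fun b hb => h b (List.mem_cons_of_mem a hb),
      Fb_congr fun b hb => h b (List.mem_cons_of_mem a hb), h a List.mem_cons_self]

lemma Pr_congr {σ σ' : Fin D → ℕ} {p : ℕ} : ∀ {t : List (Fin D)},
    (∀ a ∈ t, σ a = σ' a) → (Pr σ p t ↔ Pr σ' p t)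
  | [], _ => Iff.rfl
  | a :: t, h => by
    rw [Pr, Pr, pt_congr fun b hb => h b (List.mem_cons_of_mem a hb),
      Pr_congr fun b hb => h b (List.mem_cons_of_mem a hb), h a List.mem_cons_self]

lemma Fb_of_not {σ : Fin D → ℕ} {p : ℕ} {l : Fin D} {r : ℕ} : ∀ {t : List (Fin D)},
    (∀ u ∈ pts σ p t, ¬ (u + r - 1).Prime) → Fb σ p l r t
  | [], _ => trivial
  | a :: t, h => ⟨Fb_of_not fun u hu => h u (mem_insert_of_mem hu),
      fun h1 => absurd h1 (h _ (mem_insert_self _ _))⟩

lemma card_pts {σ : Fin D → ℕ} {p : ℕ} : ∀ {t : List (Fin D)}, (pts σ p t).card ≤ t.length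
  | [] => by simp [pts]
  | _ :: _ => by
    rw [pts, List.length_cons]
    exact (card_insert_le _ _).trans (Nat.add_le_add_right card_pts 1)

lemma pts_lt {σ : Fin D → ℕ} {p : ℕ} : ∀ {t : List (Fin D)}, (∀ a ∈ t, 2 ≤ σ a) →
    ∀ u ∈ pts σ p t, u < pt σ p t
  | [], _, u, hu => by simp [pts] at hu
  | a :: t, h, u, hu => by
    have h1 := h a List.mem_cons_self
    rw [pt]
    rw [pts, mem_insert] at hu
    rcases hu with rfl | hu
    · omega
    · have := pts_lt (fun b hb => h b (List.mem_cons_of_mem a hb)) u hu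
      omega

lemma le_pt {σ : Fin D → ℕ} {p : ℕ} : ∀ {t : List (Fin D)}, (∀ a ∈ t, 1 ≤ σ a) →
    p ≤ pt σ p t
  | [], _ => le_rfl
  | a :: t, h => by
    have h1 := h a List.mem_cons_self
    have := le_pt (p := p) (fun b hb => h b (List.mem_cons_of_mem a hb))
    rw [pt]
    omega

lemma le_pts {σ : Fin D → ℕ} {p : ℕ} : ∀ {t : List (Fin D)}, (∀ a ∈ t, 1 ≤ σ a) →
    ∀ u ∈ pts σ p t, p ≤ u
  | [], _, u, hu => by simp [pts] at hu
  | a :: t, h, u, hu => by
    rw [pts, mem_insert] at hu
    rcases hu with rfl | hu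
    · exact le_pt fun b hb => h b (List.mem_cons_of_mem a hb)
    · exact le_pts (fun b hb => h b (List.mem_cons_of_mem a hb)) u hu

lemma pt_le {σ : Fin D → ℕ} {p X : ℕ} : ∀ {t : List (Fin D)}, (∀ a ∈ t, σ a ≤ X) →
    pt σ p t ≤ p + t.length * X
  | [], _ => by simp [pt]
  | a :: t, h => by
    have h1 := h a List.mem_cons_self
    have := pt_le (p := p) (fun b hb => h b (List.mem_cons_of_mem a hb))
    rw [pt, List.length_cons, Nat.add_mul, Nat.one_mul]
    omega

lemma pt_inj {σ : Fin D → ℕ} {p p' : ℕ} : ∀ {t : List (Fin D)}, (∀ a ∈ t, 1 ≤ σ a) →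
    pt σ p t = pt σ p' t → p = p'
  | [], _, h1 => h1
  | a :: t, h, h1 => by
    have h2 := h a List.mem_cons_self
    rw [pt, pt] at h1
    exact pt_inj (fun b hb => h b (List.mem_cons_of_mem a hb)) (by omega)

lemma Walk.tail {σ : Fin D → ℕ} {p : ℕ} {a : Fin D} {t : List (Fin D)} (h : Walk σ p (a :: t)) :
    Walk σ p t := ⟨h.1.1, fun l => (h.2 l).1⟩

lemma Walk.prime {σ : Fin D → ℕ} {p : ℕ} (hp : p.Prime) : ∀ {t : List (Fin D)}, Walk σ p t →
    (pt σ p t).Prime
  | [], _ => hp
  | _ :: _, h => h.1.2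

lemma walk_unique {σ : Fin D → ℕ} {p : ℕ} : ∀ {t t' : List (Fin D)}, Walk σ p t →
    Walk σ p t' → t.length = t'.length → t = t'
  | [], [], _, _, _ => rfl
  | [], _ :: _, _, _, h => by simp at h
  | _ :: _, [], _, _, h => by simp at h
  | a :: t, a' :: t', h1, h2, h => by
    have e : t = t' := walk_unique h1.tail h2.tail (by simpa using h)
    subst e
    have g1 := (h1.2 a').2 h2.1.2
    have g2 := (h2.2 a).2 h1.1.2
    have : a = a' := by
      rcases g1 with g1 | g1
      · rcases g2 with g2 | g2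
        · omega
        · omega
      · rcases g2 with g2 | g2
        · omega
        · exact le_antisymm g1.2 g2.2
    rw [this]

lemma walk_next {σ : Fin D → ℕ} {p : ℕ} {t : List (Fin D)} (h : Walk σ p t)
    (hl : ∃ l, (pt σ p t + σ l - 1).Prime) : ∃ a, Walk σ p (a :: t) := by
  classical
  obtain ⟨l0, hl0⟩ := hl
  obtain ⟨a, ha, hmin⟩ := Finset.exists_min_image
    (univ.filter fun l : Fin D => (pt σ p t + σ l - 1).Prime) (fun l => toLex (σ l, l))
    ⟨l0, by rw [mem_filter]; exact ⟨mem_univ _, hl0⟩⟩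
  rw [mem_filter] at ha
  refine ⟨a, ⟨h.1, ha.2⟩, fun l => ⟨h.2 l, fun h1 => ?_⟩⟩
  have h2 := hmin l (by rw [mem_filter]; exact ⟨mem_univ _, h1⟩)
  rw [Prod.Lex.toLex_le_toLex] at h2
  exact h2

/-- If no greedy walk of length `< N` is stuck, then the process makes `N` steps. -/
lemma steps_of_walk {σ : Fin D → ℕ} {p X : ℕ} (hσ : ∀ i, (σ i).Prime ∧ σ i ≤ X)
    (hp : p.Prime) (hpX : X < p) (N : ℕ)
    (h : ∀ t : List (Fin D), t.length < N → Walk σ p t → ∃ l, (pt σ p t + σ l - 1).Prime) :
    Steps (insert p (univ.image σ)) N := by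
  classical
  set S := univ.image σ with hSdef
  have hS : ∀ s ∈ S, s.Prime ∧ s ≤ X := fun s hs => by
    obtain ⟨i, -, rfl⟩ := mem_image.mp hs
    exact hσ i
  have hpS : p ∉ S := fun hc => by have := (hS p hc).2; omega
  set m := (insert p S).card with hm
  have hmS : m = S.card + 1 := by rw [hm, card_insert_of_notMem hpS]
  -- the increasing enumeration
  obtain ⟨q0, hq0mono, hq0im, hq0last⟩ : ∃ q : ℕ → ℕ, (∀ i j, i < j → j < m → q i < q j) ∧
      (range m).image q = insert p S ∧ q (m - 1) = p := by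
    let e := (insert p S).orderEmbOfFin hm.symm
    let q : ℕ → ℕ := fun n => if hn : n < m then e ⟨n, hn⟩ else 0
    have hqe : ∀ n (hn : n < m), q n = e ⟨n, hn⟩ := fun n hn => dif_pos hn
    have h1 : ∀ i j, i < j → j < m → q i < q j := by
      intro i j hij hj
      rw [hqe i (by omega), hqe j hj]
      exact e.strictMono hij
    have h2 : (range m).image q = insert p S := by
      ext x
      rw [mem_image]
      constructor
      · rintro ⟨n, hn, rfl⟩
        rw [hqe n (mem_range.mp hn)]
        exact (insert p S).orderEmbOfFin_mem hm.symm _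
      · intro hx
        have h3 : x ∈ Set.range e := by
          rw [range_orderEmbOfFin]
          exact hx
        obtain ⟨⟨n, hn⟩, rfl⟩ := h3
        exact ⟨n, mem_range.mpr hn, hqe n hn⟩
    refine ⟨q, h1, h2, ?_⟩
    have h3 : p ∈ (range m).image q := by rw [h2]; exact mem_insert_self _ _
    obtain ⟨n, hn, hnp⟩ := mem_image.mp h3
    rw [mem_range] at hn
    by_contra hne
    have hlt : n < m - 1 := by
      rcases Nat.lt_or_ge n (m - 1) with h4 | h4
      · exact h4
      · exfalso
        have : n = m - 1 := by omega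
        rw [this] at hnp
        exact hne hnp
    have h5 := h1 n (m - 1) hlt (by omega)
    have h6 : q (m - 1) ∈ insert p S := by
      rw [← h2]
      exact mem_image_of_mem _ (mem_range.mpr (by omega))
    rw [hnp] at h5
    rcases mem_insert.mp h6 with h7 | h7
    · omega
    · have := (hS _ h7).2
      omega
  -- induction
  have key : ∀ j ≤ N, ∃ q : ℕ → ℕ, (∀ k < m, q k = q0 k) ∧
      (∀ k < m + j, q k ∈ S ∨ p ≤ q k) ∧
      (∀ n, m ≤ n + 1 → n + 1 < m + j → StepAt q n) ∧
      ∃ t : List (Fin D), t.length = j ∧ Walk σ p t ∧ q (m - 1 + j) = pt σ p t := by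
    intro j
    induction j with
    | zero =>
      intro _
      refine ⟨q0, fun k _ => rfl, fun k hk => ?_, fun n h1 h2 => by omega,
        [], rfl, ⟨trivial, fun _ => trivial⟩, ?_⟩
      · have h6 : q0 k ∈ insert p S := by
          rw [← hq0im]
          exact mem_image_of_mem _ (mem_range.mpr (by omega))
        rcases mem_insert.mp h6 with h7 | h7
        · exact Or.inr h7.ge
        · exact Or.inl h7
      · rw [pt, Nat.add_zero]
        exact hq0last
    | succ j ih =>
      intro hjN
      obtain ⟨q, hq1, hq2, hq3, t, ht1, ht2, ht3⟩ := ih (by omega)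
      obtain ⟨a, ha⟩ := walk_next ht2 (h t (by omega) ht2)
      have hvp : (pt σ p t).Prime := ht2.prime hp
      have hpv : p ≤ pt σ p t := le_pt fun b _ => (hσ b).1.one_lt.le
      set v := pt σ p t with hv
      have hap := ha.1.2
      rw [← hv] at hap
      have hs := hσ a
      -- the index of `σ a`
      have hsq : ∃ i, i ≤ m - 1 + j ∧ q i = σ a := by
        have h6 : σ a ∈ (range m).image q0 := by
          rw [hq0im]
          exact mem_insert_of_mem (mem_image_of_mem _ (mem_univ _))
        obtain ⟨i, hi, his⟩ := mem_image.mp h6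
        rw [mem_range] at hi
        exact ⟨i, by omega, by rw [hq1 i hi]; exact his⟩
      obtain ⟨i0, hi0, hi0s⟩ := hsq
      have hex : ∃ P : ℕ, P.Prime ∧ ∃ i, i ≤ m - 1 + j ∧ P = v + q i - 1 :=
        ⟨v + σ a - 1, hap, i0, hi0, by rw [hi0s]⟩
      set P := Nat.find hex with hP
      obtain ⟨hPp, i1, hi1, hPi⟩ := Nat.find_spec hex
      rw [← hP] at hPp hPi
      have hPle : P ≤ v + σ a - 1 := Nat.find_min' hex ⟨hap, i0, hi0, by rw [hi0s]⟩
      have hs2 := hs.1.two_le
      have hv2 := hvp.two_le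
      have hi1S : q i1 ∈ S := by
        rcases hq2 i1 (by omega) with h7 | h7
        · exact h7
        · exfalso
          omega
      obtain ⟨l1, -, hl1⟩ := mem_image.mp hi1S
      have hPv : P = v + σ a - 1 := by
        have h8 := (ha.2 l1).2 (by
          rw [← hv, hl1, ← hPi]
          exact hPp)
        have h9 := (hσ l1).1.two_le
        rw [← hl1] at hPi
        omega
      set q' := Function.update q (m + j) P with hq'
      have hq'1 : ∀ k < m + j, q' k = q k := fun k hk => by
        rw [hq', Function.update_of_ne (by omega)]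
      have hq'2 : q' (m + j) = P := by rw [hq', Function.update_self]
      refine ⟨q', fun k hk => by rw [hq'1 k (by omega)]; exact hq1 k hk, fun k hk => ?_,
        fun n h1 h2 => ?_, a :: t, by rw [List.length_cons, ht1], ha, ?_⟩
      · rcases Nat.lt_or_ge k (m + j) with h8 | h8
        · rw [hq'1 k h8]
          exact hq2 k h8
        · have : k = m + j := by omega
          rw [this, hq'2]
          right
          omega
      · rcases Nat.lt_or_ge (n + 1) (m + j) with h8 | h8
        · exact (hq3 n h1 h8).congr fun k hk => (hq'1 k (by omega)).symm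
        · have hn : n = m - 1 + j := by omega
          have hn1 : n + 1 = m + j := by omega
          refine ⟨by rw [hn1, hq'2]; exact hPp, ⟨i1, by omega, ?_⟩, fun p' hp' hp'i => ?_⟩
          · rw [hn1, hq'2, hq'1 n (by omega), hq'1 i1 (by omega), hn, ht3]
            exact hPi
          · obtain ⟨i, hi, e⟩ := hp'i
            rw [hn1, hq'2]
            refine Nat.find_min' hex ⟨hp', i, by omega, ?_⟩
            rw [e, hq'1 n (by omega), hq'1 i (by omega), hn, ht3]
      · rw [show m - 1 + (j + 1) = m + j by omega, hq'2, pt]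
        exact hPv
  obtain ⟨q, hq1, -, hq3, -⟩ := key N le_rfl
  refine ⟨q, fun i j hij hj => ?_, ?_, hq3⟩
  · rw [hq1 i (by omega), hq1 j hj]
    exact hq0mono i j hij hj
  · refine Eq.trans ?_ hq0im
    ext x
    simp only [mem_image, mem_range]
    constructor
    · rintro ⟨k, hk, rfl⟩
      exact ⟨k, hk, (hq1 k hk).symm⟩
    · rintro ⟨k, hk, rfl⟩
      exact ⟨k, hk, hq1 k hk⟩

end Pool.Agent.Lib.Ulam82
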